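import Pool.Agent.ASE.Stmts5

/-!
# Squad ASE, row GDV: the values of `GD`
-/

open scoped BigOperators

set_option autoImplicit false

noncomputable section

namespace Pool.Agent.PP.SE.H41

open Pool.Agent.Helper51_AWC Pool.Agent.Helper79_WRA Pool.Agent.PP Pool.Agent.PP.KF
open Pool.Agent.PP.K9 Pool.Agent.PP.K9.H97 Pool.Agent.PP.H75 Pool.Agent.PP.T3 Pool.Agent.PP.SO
open Pool.Agent.PP.SD

namespace GDV

/-! ### Rational numbers -/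

section tools

variable {ℓ : ℕ} [Fact ℓ.Prime]

theorem nat_rl (n : ℕ) : (n : ℚ) ∈ SOR.Rl ℓ := natCast_mem _ n

theorem int_rl (n : ℤ) : (n : ℚ) ∈ SOR.Rl ℓ := intCast_mem _ n

theorem not_unit (r : ℚ) (hr : r ∈ SOR.Rl ℓ) (h : 1 = (ℓ : ℚ) * r) : False := by
  have hp : Nat.Prime ℓ := Fact.out
  have h0 : (ℓ : ℚ) ≠ 0 := by exact_mod_cast hp.ne_zero
  have h1 : r = (ℓ : ℚ)⁻¹ := by
    field_simp
    linarith
  have h2 : ((ℓ : ℚ)⁻¹).den = ℓ := Rat.inv_natCast_den_of_pos hp.pos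
  rw [h1] at hr
  have h3 : ¬ ℓ ∣ ((ℓ : ℚ)⁻¹).den := hr
  rw [h2] at h3
  exact h3 dvd_rfl

/-- numbers in `1 + ℓ Rl ℓ` are units -/
theorem unit_rl (x q : ℚ) (hq : q ∈ SOR.Rl ℓ) (hx : x = 1 + ℓ * q) :
    x ≠ 0 ∧ x ∈ SOR.Rl ℓ ∧ x⁻¹ ∈ SOR.Rl ℓ := by
  have hp : Nat.Prime ℓ := Fact.out
  have hx0 : x ≠ 0 := by
    intro h
    refine not_unit (ℓ := ℓ) (-q) (neg_mem hq) ?_
    rw [hx] at h
    linarith
  have hxR : x ∈ SOR.Rl ℓ := by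
    rw [hx]
    exact add_mem (one_mem _) (mul_mem (nat_rl ℓ) hq)
  refine ⟨hx0, hxR, ?_⟩
  change ¬ ℓ ∣ (x⁻¹).den
  rw [Rat.den_inv_of_ne_zero hx0]
  intro h
  obtain ⟨k, hk⟩ : (ℓ : ℤ) ∣ x.num := Int.natCast_dvd.2 h
  have h1 : x = (ℓ : ℚ) * (k * (x.den : ℚ)⁻¹) := by
    conv_lhs => rw [← Rat.num_div_den x]
    rw [hk]
    push_cast
    ring
  have h2 : (x.den : ℚ)⁻¹ ∈ SOR.Rl ℓ := by
    change ¬ ℓ ∣ ((x.den : ℚ)⁻¹).den
    rw [Rat.inv_natCast_den_of_pos x.den_pos]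
    exact hxR
  refine not_unit (ℓ := ℓ) (k * (x.den : ℚ)⁻¹ - q)
    (sub_mem (mul_mem (intCast_mem _ k) h2) hq) ?_
  have h3 := hx
  rw [h1] at h3
  linarith

/-- `x` is in `1 + ℓ Rl ℓ` -/
def On (ℓ : ℕ) [Fact ℓ.Prime] (x : ℚ) : Prop := ∃ q ∈ SOR.Rl ℓ, x = 1 + ℓ * q

theorem on_one : On ℓ 1 := ⟨0, zero_mem _, by ring⟩

theorem on_mul {x y : ℚ} (hx : On ℓ x) (hy : On ℓ y) : On ℓ (x * y) := by
  obtain ⟨q, hq, rfl⟩ := hx
  obtain ⟨r, hr, rfl⟩ := hy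
  exact ⟨q + r + ℓ * (q * r), add_mem (add_mem hq hr) (mul_mem (nat_rl ℓ) (mul_mem hq hr)),
    by ring⟩

theorem on_inv {x : ℚ} (hx : On ℓ x) : On ℓ x⁻¹ := by
  obtain ⟨q, hq, h⟩ := hx
  obtain ⟨h0, _, h2⟩ := unit_rl x q hq h
  refine ⟨-(q * x⁻¹), neg_mem (mul_mem hq h2), ?_⟩
  have h3 : x * x⁻¹ = 1 := mul_inv_cancel₀ h0
  have h4 : (ℓ : ℚ) * q = x - 1 := by
    rw [h]
    ring
  calc x⁻¹ = x * x⁻¹ - (x - 1) * x⁻¹ := by ring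
    _ = 1 + ℓ * -(q * x⁻¹) := by
      rw [h3, ← h4]
      ring

end tools

/-! ### Lines -/

section lines

variable {ℓ : ℕ} [hℓ : Fact ℓ.Prime] {V₀ : Type} [CommGroup V₀] [Finite V₀]

omit [Finite V₀] in
theorem pow_dvd {ex : ∀ v : V₀, v ^ ℓ = 1} (v : V₀) {k : ℕ} (h : ℓ ∣ k) : v ^ k = 1 := by
  obtain ⟨j, rfl⟩ := h
  rw [pow_mul, ex, one_pow]

omit [Finite V₀] in
theorem dvd_of_mem (ex : ∀ v : V₀, v ^ ℓ = 1) (A : Subgroup V₀) {v : V₀} (hv : v ∉ A) {k : ℕ}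
    (hk : v ^ k ∈ A) : ℓ ∣ k := by
  by_contra hcon
  have hcop : Nat.Coprime k ℓ := ((Nat.Prime.coprime_iff_not_dvd hℓ.out).2 hcon).symm
  obtain ⟨j, -, hj⟩ := Nat.exists_mul_mod_eq_one_of_coprime hcop hℓ.out.one_lt
  apply hv
  have h1 : v ^ (k * j) = v := by
    rw [← Nat.mod_add_div (k * j) ℓ, hj, pow_add, pow_mul, ex, one_pow, mul_one, pow_one]
  rw [← h1, pow_mul]
  exact pow_mem hk j

theorem zpow_eq (A : Subgroup V₀) (hA : Nat.card A = ℓ) {v : V₀} (hv : v ∈ A) (hv1 : v ≠ 1) :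
    Subgroup.zpowers v = A := by
  have hle : Subgroup.zpowers v ≤ A := by
    rw [Subgroup.zpowers_le]
    exact hv
  refine Subgroup.eq_of_le_of_card_ge hle ?_
  have h1 : Nat.card (Subgroup.zpowers v) ∣ Nat.card A := Subgroup.card_dvd_of_le hle
  rw [hA] at h1 ⊢
  rcases (Nat.dvd_prime hℓ.out).1 h1 with h | h
  · exfalso
    rw [Subgroup.card_eq_one, Subgroup.zpowers_eq_bot] at h
    exact hv1 h
  · exact h.ge

theorem lines (hV : Nat.card V₀ = ℓ ^ 2) (a W : Subgroup V₀) (ha : Nat.card a = ℓ)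
    (hW : Nat.card W = ℓ) (hne : W ≠ a) :
    (∀ v ∈ a, v ∈ W → v = 1) ∧ ∀ v, ∃ α ∈ a, ∃ w ∈ W, v = α * w := by
  have h1 : ∀ v ∈ a, v ∈ W → v = 1 := by
    intro v hva hvW
    by_contra hv1
    exact hne ((zpow_eq W hW hvW hv1).symm.trans (zpow_eq a ha hva hv1))
  refine ⟨h1, ?_⟩
  have hinj : Function.Injective fun x : a × W => (x.1 : V₀) * x.2 := by
    rintro ⟨α, w⟩ ⟨α', w'⟩ h
    have h2 : (α : V₀) * w = α' * w' := h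
    have h3 : (α' : V₀)⁻¹ * α = w' * (w : V₀)⁻¹ := by
      rw [eq_mul_inv_iff_mul_eq, mul_assoc, h2, inv_mul_cancel_left]
    have h4 : (α' : V₀)⁻¹ * α = 1 := h1 _ (mul_mem (inv_mem α'.2) α.2) (by
      rw [h3]
      exact mul_mem w'.2 (inv_mem w.2))
    have h5 : α = α' := Subtype.ext (inv_mul_eq_one.1 h4).symm
    rw [h4] at h3
    have h6 : w = w' := Subtype.ext (mul_inv_eq_one.1 h3.symm).symm
    rw [h5, h6]
  have hbij := hinj.bijective_of_nat_card_le (by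
    rw [Nat.card_prod, ha, hW, hV, sq])
  intro v
  obtain ⟨⟨α, w⟩, h⟩ := hbij.2 v
  exact ⟨α, α.2, w, w.2, h.symm⟩

end lines

end GDV

open GDV

theorem gdv (gdh : GdhStmt) (tya : TyaStmt) (fva : FvaStmt) : GdvStmt := by
  intro ℓ hℓ V₀ _ _ E₀ hF n ρ₁ ρ₂ hn hρ₁ hρ₂ x₁ x₂ hx₁ hx₂ F₁₃ Ψ M₁ M₂ K hFE U hU c d σ τ a y ha
    hσ hτ hκ
  obtain ⟨f1, f2, f3, f4, f5, f6⟩ :=
    fva ℓ V₀ hF.ex n ρ₁ ρ₂ hn hρ₁ hρ₂ x₁ x₂ hx₁ hx₂ F₁₃ Ψ M₁ M₂ K hFE c d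
  obtain ⟨t1, t2, t3⟩ := tya ℓ V₀ E₀ hF n σ τ a (c * σ d) y ha hσ hτ
  set F : Set (SO.SS n V₀) → ℚ := F12 ℓ x₁ x₂ Ψ M₁ M₂ K c d with hFdef
  set κ := c * σ d with hκdef
  have hℓ0 : (ℓ : ℚ) ≠ 0 := by exact_mod_cast hℓ.out.ne_zero
  have n0 : 0 < n := by
    obtain ⟨r, -, rfl⟩ := hn
    exact pow_pos hℓ.out.pos r
  let z0 : Fin n := ⟨0, n0⟩
  have hz0 : (z0 : ℕ) = 0 := rfl
  -- the value at the types with `p = q = 1`
  have ρ1 : ρ₁ 1 = 0 := by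
    have := hρ₁ 1 1
    rw [mul_one] at this
    exact (left_eq_add.1 this)
  have ρ2 : ρ₂ 1 = 0 := by
    have := hρ₂ 1 1
    rw [mul_one] at this
    exact (left_eq_add.1 this)
  have fv : ∀ X : Set (SO.SS n V₀), (∀ s ∈ X, s.2.2.1 = 1 ∧ s.2.2.2 = 1) →
      F X = (x₁ c⁻¹ * x₂ d⁻¹ : ℤ) / (ℓ : ℚ) ^ 2 := by
    intro X hX
    refine f2 X (fun s hs _ _ => hX s hs) fun s hs => ?_
    rw [(hX s hs).1, (hX s hs).2]
    exact ⟨ρ1, ρ2⟩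
  -- integers divided by `ℓ ^ 2`
  have hint : ∀ z z' : ℤ, (ℓ : ℚ) ^ 2 * ((z : ℚ) / (ℓ : ℚ) ^ 2 - z' / (ℓ : ℚ) ^ 2) ∈ SOR.Rl ℓ := by
    intro z z'
    have : (ℓ : ℚ) ^ 2 * ((z : ℚ) / (ℓ : ℚ) ^ 2 - z' / (ℓ : ℚ) ^ 2) = ((z - z' : ℤ) : ℚ) := by
      push_cast
      field_simp
    rw [this]
    exact int_rl _
  -- the coefficients
  have hcs : ∀ W : Subgroup V₀, Nat.card W = ℓ → ∃ q ∈ SOR.Rl ℓ, cS U c d σ W - 1 = ℓ * q := by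
    intro W hW
    have hWb : W ≠ ⊥ := by
      rintro rfl
      rw [Subgroup.card_bot] at hW
      exact hℓ.out.one_lt.ne hW
    have hu : ∀ v, On ℓ (ux U W v) := by
      intro v
      unfold ux
      split_ifs
      · exact on_one
      · exact hU W hWb
    obtain ⟨q, hq, h⟩ := on_mul (on_mul (hu c) (hu (σ d))) (on_inv (hu (c * σ d)))
    refine ⟨q, hq, ?_⟩
    unfold cS
    rw [div_eq_mul_inv, h]
    ring
  -- the reduction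
  have key : ∀ T : Set (SO.SS n V₀), (∀ s ∈ T, κ ^ (s.2.1 : ℕ) * s.2.2.1 ∈ a) →
      (∀ W : Subgroup V₀, Nat.card W = ℓ → (ℓ : ℚ) ^ 2 * (F {s | s ∈ T ∧ s.2.2.1 ∈ W} -
        F (A1 κ {s | s ∈ T ∧ s.2.2.1 ∈ W})) ∈ SOR.Rl ℓ) →
      ∃ q ∈ SOR.Rl ℓ, GD U c d σ a F T = F T - F (A1 κ T) + q / ℓ := by
    intro T hT hW
    refine ⟨ℓ * ∑ᶠ W ∈ {W : Subgroup V₀ | Nat.card W = ℓ}, (cS U c d σ W - 1) *
      (F {s | s ∈ T ∧ s.2.2.1 ∈ W} - F (A1 κ {s | s ∈ T ∧ s.2.2.1 ∈ W})), ?_, ?_⟩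
    · rw [mul_finsum_mem (fun W : Subgroup V₀ => (cS U c d σ W - 1) *
        (F {s | s ∈ T ∧ s.2.2.1 ∈ W} - F (A1 κ {s | s ∈ T ∧ s.2.2.1 ∈ W})))]
      refine finsum_mem_induction (fun x => x ∈ SOR.Rl ℓ) (zero_mem _) (fun _ _ => add_mem) ?_
      intro W hWc
      obtain ⟨q, hq, h⟩ := hcs W hWc
      rw [h]
      have h2 : (ℓ : ℚ) * (ℓ * q * (F {s | s ∈ T ∧ s.2.2.1 ∈ W} -
          F (A1 κ {s | s ∈ T ∧ s.2.2.1 ∈ W}))) = q * ((ℓ : ℚ) ^ 2 *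
          (F {s | s ∈ T ∧ s.2.2.1 ∈ W} - F (A1 κ {s | s ∈ T ∧ s.2.2.1 ∈ W}))) := by ring
      show (ℓ : ℚ) * (ℓ * q * (F {s | s ∈ T ∧ s.2.2.1 ∈ W} -
          F (A1 κ {s | s ∈ T ∧ s.2.2.1 ∈ W}))) ∈ SOR.Rl ℓ
      rw [h2]
      exact mul_mem hq (hW W hWc)
    · rw [gdh ℓ V₀ E₀ hF n U c d σ a ha hκ F T hT]
      rw [mul_div_cancel_left₀ _ hℓ0]
  -- some element of `a`
  obtain ⟨p0, hp0, hp01⟩ : ∃ p ∈ a, p ≠ 1 := by
    by_contra hcon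
    push Not at hcon
    have : a = ⊥ := by
      rw [Subgroup.eq_bot_iff_forall]
      exact hcon
    rw [this, Subgroup.card_bot] at ha
    exact hℓ.out.one_lt.ne ha
  -- powers of κ
  have hκa : ∀ k : ℕ, κ ^ k ∈ a → ℓ ∣ k := fun k hk => dvd_of_mem hF.ex a hκ hk
  have hpd : ∀ (v : V₀) {k : ℕ}, ℓ ∣ k → v ^ k = 1 := fun v k h => pow_dvd (ex := hF.ex) v h
  refine ⟨?_, ?_, ?_⟩
  · intro hτa
    have hT : (TD σ a κ τ y : Set (SO.SS n V₀)) = {s | κ ^ (s.2.1 : ℕ) * s.2.2.1 ∈ a ∧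
      s.2.2.2 = σ⁻¹ s.2.2.1 ∧ y ^ (s.1 : ℕ) = 1} := (t1 hτa).2
    rw [hT]
    obtain ⟨q, hq, h⟩ := key {s | κ ^ (s.2.1 : ℕ) * s.2.2.1 ∈ a ∧
      s.2.2.2 = σ⁻¹ s.2.2.1 ∧ y ^ (s.1 : ℕ) = 1} (fun s hs => hs.1) (by
      intro W hW
      by_cases hWa : W = a
      · subst hWa
        rw [f1 {s | s ∈ {s : SO.SS n V₀ | κ ^ (s.2.1 : ℕ) * s.2.2.1 ∈ W ∧
          s.2.2.2 = σ⁻¹ s.2.2.1 ∧ y ^ (s.1 : ℕ) = 1} ∧ s.2.2.1 ∈ W} (fun hfre => hp01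
            (hfre (z0, z0, p0, σ⁻¹ p0) ⟨⟨by
              show κ ^ (z0 : ℕ) * p0 ∈ W
              rw [hz0, pow_zero, one_mul]
              exact hp0, rfl, by
              show y ^ (z0 : ℕ) = 1
              rw [hz0, pow_zero]⟩, hp0⟩ hz0 hz0).1)]
        rw [fv _ (by
          rintro s ⟨⟨⟨h1, h2, h3⟩, h4⟩, h5⟩
          have h6 : κ ^ (s.2.1 : ℕ) ∈ W := by
            have := mul_mem h1 (inv_mem h4)
            rwa [mul_inv_cancel_right] at this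
          have h7 := hpd κ (hκa _ h6)
          rw [h7, one_mul] at h5
          refine ⟨h5, ?_⟩
          rw [h2, h5, map_one])]
        have h8 := hint 0 (x₁ c⁻¹ * x₂ d⁻¹)
        rw [Int.cast_zero, zero_div] at h8
        exact h8
      · obtain ⟨hi, hd⟩ := lines hF.cd a W ha hW hWa
        by_cases hκW : κ ∈ W
        · have h1 : A1 κ {s | s ∈ {s : SO.SS n V₀ | κ ^ (s.2.1 : ℕ) * s.2.2.1 ∈ a ∧
              s.2.2.2 = σ⁻¹ s.2.2.1 ∧ y ^ (s.1 : ℕ) = 1} ∧ s.2.2.1 ∈ W} =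
              {s | s ∈ {s : SO.SS n V₀ | κ ^ (s.2.1 : ℕ) * s.2.2.1 ∈ a ∧
              s.2.2.2 = σ⁻¹ s.2.2.1 ∧ y ^ (s.1 : ℕ) = 1} ∧ s.2.2.1 ∈ W} := by
            ext s
            constructor
            · exact fun h => h.1
            · intro h
              exact ⟨h, hi _ h.1.1 (mul_mem (pow_mem hκW _) h.2)⟩
          rw [h1, sub_self, mul_zero]
          exact zero_mem _
        · obtain ⟨α, hα, w, hw, hκe⟩ := hd κ
          have hα1 : α ∉ (⊥ : Subgroup V₀) := by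
            intro h
            rw [Subgroup.mem_bot] at h
            rw [h, one_mul] at hκe
            exact hκW (hκe ▸ hw)
          have hset : {s | s ∈ {s : SO.SS n V₀ | κ ^ (s.2.1 : ℕ) * s.2.2.1 ∈ a ∧
              s.2.2.2 = σ⁻¹ s.2.2.1 ∧ y ^ (s.1 : ℕ) = 1} ∧ s.2.2.1 ∈ W} =
              {s | s.1 ∈ {i : Fin n | y ^ (i : ℕ) = 1} ∧ s.2.2.1 = w⁻¹ ^ (s.2.1 : ℕ) ∧
                s.2.2.2 = (σ⁻¹ w)⁻¹ ^ (s.2.1 : ℕ)} := by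
            ext s
            have h0 : κ ^ (s.2.1 : ℕ) * s.2.2.1 =
                α ^ (s.2.1 : ℕ) * (w ^ (s.2.1 : ℕ) * s.2.2.1) := by
              rw [hκe, mul_pow, mul_assoc]
            constructor
            · rintro ⟨⟨h1, h2, h3⟩, h4⟩
              rw [h0] at h1
              have h5 : w ^ (s.2.1 : ℕ) * s.2.2.1 = 1 := by
                refine hi _ ?_ (mul_mem (pow_mem hw _) h4)
                exact (Subgroup.mul_mem_cancel_left _ (pow_mem hα _)).1 h1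
              have h6 : s.2.2.1 = w⁻¹ ^ (s.2.1 : ℕ) := by
                rw [inv_pow]
                exact eq_inv_of_mul_eq_one_right h5
              refine ⟨h3, h6, ?_⟩
              rw [h2, h6, map_pow, map_inv]
            · rintro ⟨h1, h2, h3⟩
              refine ⟨⟨?_, ?_, h1⟩, ?_⟩
              · rw [h0, h2, inv_pow, mul_inv_cancel, mul_one]
                exact pow_mem hα _
              · rw [h3, h2, map_pow, map_inv]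
              · rw [h2]
                exact pow_mem (inv_mem hw) _
          rw [hset, f3 w⁻¹ (σ⁻¹ w)⁻¹ {i : Fin n | y ^ (i : ℕ) = 1} ⟨z0, by
            show y ^ (z0 : ℕ) = 1
            rw [hz0, pow_zero], hz0⟩]
          rw [fv _ (by
            rintro s ⟨⟨h1, h2, h3⟩, h5⟩
            have h6 : α ^ (s.2.1 : ℕ) = 1 := by
              rw [h2, hκe, mul_pow, inv_pow, mul_assoc, mul_inv_cancel, mul_one] at h5
              exact h5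
            have h7 : ℓ ∣ (s.2.1 : ℕ) := dvd_of_mem hF.ex ⊥ hα1 (by
              rw [Subgroup.mem_bot]
              exact h6)
            rw [h2, h3, hpd _ h7, hpd _ h7]
            exact ⟨rfl, rfl⟩)]
          exact hint _ _)
    refine ⟨q, hq, ?_⟩
    rw [h]
    congr 1
    rw [f1 {s : SO.SS n V₀ | κ ^ (s.2.1 : ℕ) * s.2.2.1 ∈ a ∧
      s.2.2.2 = σ⁻¹ s.2.2.1 ∧ y ^ (s.1 : ℕ) = 1} (fun hfre => hp01 (hfre (z0, z0, p0, σ⁻¹ p0) ⟨by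
      show κ ^ (z0 : ℕ) * p0 ∈ a
      rw [hz0, pow_zero, one_mul]
      exact hp0, rfl, by
      show y ^ (z0 : ℕ) = 1
      rw [hz0, pow_zero]⟩ hz0 hz0).1)]
    have hA : A1 κ {s : SO.SS n V₀ | κ ^ (s.2.1 : ℕ) * s.2.2.1 ∈ a ∧
        s.2.2.2 = σ⁻¹ s.2.2.1 ∧ y ^ (s.1 : ℕ) = 1} =
        {s | s.1 ∈ {i : Fin n | y ^ (i : ℕ) = 1} ∧ s.2.2.1 = κ⁻¹ ^ (s.2.1 : ℕ) ∧
          s.2.2.2 = (σ⁻¹ κ)⁻¹ ^ (s.2.1 : ℕ)} := by
      ext s
      constructor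
      · rintro ⟨⟨h1, h2, h3⟩, h4⟩
        have h6 : s.2.2.1 = κ⁻¹ ^ (s.2.1 : ℕ) := by
          rw [inv_pow]
          exact eq_inv_of_mul_eq_one_right h4
        refine ⟨h3, h6, ?_⟩
        rw [h2, h6, map_pow, map_inv]
      · rintro ⟨h1, h2, h3⟩
        have h5 : κ ^ (s.2.1 : ℕ) * s.2.2.1 = 1 := by
          rw [h2, inv_pow, mul_inv_cancel]
        refine ⟨⟨?_, ?_, h1⟩, h5⟩
        · rw [h5]
          exact one_mem _
        · rw [h3, h2, map_pow, map_inv]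
    rw [hA, f3 κ⁻¹ (σ⁻¹ κ)⁻¹ {i : Fin n | y ^ (i : ℕ) = 1} ⟨z0, by
      show y ^ (z0 : ℕ) = 1
      rw [hz0, pow_zero], hz0⟩, zero_sub]
  · intro hτa ζ hζ hζ1 hy
    have hT : (TD σ a κ τ y : Set (SO.SS n V₀)) = {s | s.2.2.1 = ζ ^ (s.1 : ℕ) *
      κ⁻¹ ^ (s.2.1 : ℕ) ∧ s.2.2.2 = (σ⁻¹ ζ) ^ (s.1 : ℕ) * (σ⁻¹ κ)⁻¹ ^ (s.2.1 : ℕ)} :=
      (t2 hτa ζ hζ hζ1 hy).2
    rw [hT]
    have hζb : ζ ∉ (⊥ : Subgroup V₀) := fun h => hζ1 (Subgroup.mem_bot.1 h)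
    have hζd : ∀ i : ℕ, ζ ^ i = 1 → ℓ ∣ i := fun i hi => dvd_of_mem hF.ex ⊥ hζb (by
      rw [Subgroup.mem_bot]
      exact hi)
    have hαs : ∀ s : SO.SS n V₀, s.2.2.1 = ζ ^ (s.1 : ℕ) * κ⁻¹ ^ (s.2.1 : ℕ) →
        κ ^ (s.2.1 : ℕ) * s.2.2.1 = ζ ^ (s.1 : ℕ) := by
      intro s hs
      rw [hs, inv_pow, mul_comm, inv_mul_cancel_right]
    obtain ⟨q, hq, h⟩ := key {s | s.2.2.1 = ζ ^ (s.1 : ℕ) *
      κ⁻¹ ^ (s.2.1 : ℕ) ∧ s.2.2.2 = (σ⁻¹ ζ) ^ (s.1 : ℕ) * (σ⁻¹ κ)⁻¹ ^ (s.2.1 : ℕ)} (fun s hs => by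
        rw [hαs s hs.1]
        exact pow_mem hζ _) (by
      intro W hW
      by_cases hWa : W = a
      · subst hWa
        have hset : {s | s ∈ {s : SO.SS n V₀ | s.2.2.1 = ζ ^ (s.1 : ℕ) *
            κ⁻¹ ^ (s.2.1 : ℕ) ∧ s.2.2.2 = (σ⁻¹ ζ) ^ (s.1 : ℕ) * (σ⁻¹ κ)⁻¹ ^ (s.2.1 : ℕ)} ∧
            s.2.2.1 ∈ W} = {s | ℓ ∣ (s.2.1 : ℕ) ∧ s.2.2.1 = ζ ^ (s.1 : ℕ) ∧
              s.2.2.2 = (σ⁻¹ ζ) ^ (s.1 : ℕ)} := by
          ext s
          constructor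
          · rintro ⟨⟨h1, h2⟩, h3⟩
            have h4 : ℓ ∣ (s.2.1 : ℕ) := by
              apply hκa
              rw [h1] at h3
              have h5 := (Subgroup.mul_mem_cancel_left _ (pow_mem hζ _)).1 h3
              rw [inv_pow] at h5
              exact (Subgroup.inv_mem_iff _).1 h5
            rw [hpd κ⁻¹ h4, mul_one] at h1
            rw [hpd (σ⁻¹ κ)⁻¹ h4, mul_one] at h2
            exact ⟨h4, h1, h2⟩
          · rintro ⟨h1, h2, h3⟩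
            refine ⟨⟨?_, ?_⟩, ?_⟩
            · rw [hpd κ⁻¹ h1, mul_one]
              exact h2
            · rw [hpd (σ⁻¹ κ)⁻¹ h1, mul_one]
              exact h3
            · rw [h2]
              exact pow_mem hζ _
        rw [hset, f5 ζ (σ⁻¹ ζ)]
        rw [fv _ (by
          rintro s ⟨⟨h1, h2, h3⟩, h5⟩
          rw [hpd κ h1, one_mul] at h5
          refine ⟨h5, ?_⟩
          rw [h2] at h5
          rw [h3, hpd _ (hζd _ h5)])]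
        exact hint _ _
      · obtain ⟨hi, hd⟩ := lines hF.cd a W ha hW hWa
        by_cases hκW : κ ∈ W
        · have h1 : A1 κ {s | s ∈ {s : SO.SS n V₀ | s.2.2.1 = ζ ^ (s.1 : ℕ) *
              κ⁻¹ ^ (s.2.1 : ℕ) ∧ s.2.2.2 = (σ⁻¹ ζ) ^ (s.1 : ℕ) * (σ⁻¹ κ)⁻¹ ^ (s.2.1 : ℕ)} ∧
              s.2.2.1 ∈ W} = {s | s ∈ {s : SO.SS n V₀ | s.2.2.1 = ζ ^ (s.1 : ℕ) *
              κ⁻¹ ^ (s.2.1 : ℕ) ∧ s.2.2.2 = (σ⁻¹ ζ) ^ (s.1 : ℕ) * (σ⁻¹ κ)⁻¹ ^ (s.2.1 : ℕ)} ∧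
              s.2.2.1 ∈ W} := by
            ext s
            constructor
            · exact fun h => h.1
            · intro h
              refine ⟨h, hi _ ?_ (mul_mem (pow_mem hκW _) h.2)⟩
              rw [hαs s h.1.1]
              exact pow_mem hζ _
          rw [h1, sub_self, mul_zero]
          exact zero_mem _
        · obtain ⟨α, hα, w, hw, hκe⟩ := hd κ
          obtain ⟨i₀, hi₀⟩ : ∃ i₀ : ℕ, ζ ^ i₀ = α := by
            have h1 : α ∈ Subgroup.zpowers ζ := by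
              rw [zpow_eq a ha hζ hζ1]
              exact hα
            have h2 := mem_powers_iff_mem_zpowers.2 h1
            exact (Submonoid.mem_powers_iff _ _).1 h2
          have hi₀d : ¬ ℓ ∣ i₀ := by
            intro h1
            rw [hpd ζ h1] at hi₀
            rw [← hi₀, one_mul] at hκe
            exact hκW (hκe ▸ hw)
          have hcong : ∀ i k : ℕ, ζ ^ i * (ζ ^ (i₀ * k))⁻¹ = 1 ↔ i ≡ i₀ * k [MOD ℓ] := by
            intro i k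
            rw [mul_inv_eq_one]
            have hord : orderOf ζ = ℓ := orderOf_eq_prime (hF.ex ζ) hζ1
            rw [pow_eq_pow_iff_modEq, hord]
          have hset : {s | s ∈ {s : SO.SS n V₀ | s.2.2.1 = ζ ^ (s.1 : ℕ) *
              κ⁻¹ ^ (s.2.1 : ℕ) ∧ s.2.2.2 = (σ⁻¹ ζ) ^ (s.1 : ℕ) * (σ⁻¹ κ)⁻¹ ^ (s.2.1 : ℕ)} ∧
              s.2.2.1 ∈ W} = {s | s.2.2.1 = w⁻¹ ^ (s.2.1 : ℕ) ∧
                s.2.2.2 = (σ⁻¹ w⁻¹) ^ (s.2.1 : ℕ) ∧ (s.1 : ℕ) ≡ i₀ * (s.2.1 : ℕ) [MOD ℓ]} := by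
            ext s
            have h0 : ζ ^ (s.1 : ℕ) * κ⁻¹ ^ (s.2.1 : ℕ) =
                ζ ^ (s.1 : ℕ) * (ζ ^ (i₀ * (s.2.1 : ℕ)))⁻¹ * w⁻¹ ^ (s.2.1 : ℕ) := by
              rw [hκe, ← hi₀, mul_inv, mul_pow, inv_pow, ← pow_mul, mul_assoc]
            have h0' : (σ⁻¹ ζ) ^ (s.1 : ℕ) * (σ⁻¹ κ)⁻¹ ^ (s.2.1 : ℕ) =
                σ⁻¹ (ζ ^ (s.1 : ℕ) * κ⁻¹ ^ (s.2.1 : ℕ)) := by
              rw [map_mul σ⁻¹ (ζ ^ (s.1 : ℕ)) (κ⁻¹ ^ (s.2.1 : ℕ)), map_pow, map_pow, map_inv]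
            constructor
            · rintro ⟨⟨h1, h2⟩, h3⟩
              have h4 : ζ ^ (s.1 : ℕ) * (ζ ^ (i₀ * (s.2.1 : ℕ)))⁻¹ = 1 := by
                refine hi _ (mul_mem (pow_mem hζ _) (inv_mem (pow_mem hζ _))) ?_
                rw [h1, h0] at h3
                exact (Subgroup.mul_mem_cancel_right _ (pow_mem (inv_mem hw) _)).1 h3
              rw [h0, h4, one_mul] at h1
              refine ⟨h1, ?_, (hcong _ _).1 h4⟩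
              rw [h2, h0', h0, h4, one_mul, map_pow]
            · rintro ⟨h1, h2, h3⟩
              have h4 := (hcong _ _).2 h3
              refine ⟨⟨?_, ?_⟩, ?_⟩
              · rw [h0, h4, one_mul]
                exact h1
              · rw [h0', h0, h4, one_mul, map_pow]
                exact h2
              · rw [h1]
                exact pow_mem (inv_mem hw) _
          rw [hset, mul_sub]
          refine sub_mem (f6 w⁻¹ (σ⁻¹ w⁻¹) i₀ hi₀d) ?_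
          rw [fv _ (by
            rintro s ⟨⟨h1, h2, h3⟩, h5⟩
            have h6 : ℓ ∣ (s.2.1 : ℕ) := by
              rw [h1, hκe, mul_pow, inv_pow, mul_assoc, mul_inv_cancel, mul_one, ← hi₀,
                ← pow_mul] at h5
              exact ((Nat.Prime.dvd_mul hℓ.out).1 (hζd _ h5)).resolve_left hi₀d
            rw [h1, h2, hpd _ h6, hpd _ h6]
            exact ⟨rfl, rfl⟩)]
          rw [mul_div_cancel₀ _ (pow_ne_zero 2 hℓ0)]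
          exact int_rl _)
    refine ⟨q, hq, ?_⟩
    rw [h]
    congr 1
    rw [f4 ζ (σ⁻¹ ζ) κ⁻¹ (σ⁻¹ κ)⁻¹]
    have hA : A1 κ {s : SO.SS n V₀ | s.2.2.1 = ζ ^ (s.1 : ℕ) *
        κ⁻¹ ^ (s.2.1 : ℕ) ∧ s.2.2.2 = (σ⁻¹ ζ) ^ (s.1 : ℕ) * (σ⁻¹ κ)⁻¹ ^ (s.2.1 : ℕ)} =
        {s | s.1 ∈ {i : Fin n | ζ ^ (i : ℕ) = 1} ∧ s.2.2.1 = κ⁻¹ ^ (s.2.1 : ℕ) ∧
          s.2.2.2 = (σ⁻¹ κ)⁻¹ ^ (s.2.1 : ℕ)} := by
      ext s
      constructor
      · rintro ⟨⟨h1, h2⟩, h3⟩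
        rw [hαs s h1] at h3
        refine ⟨h3, ?_, ?_⟩
        · rw [h1, h3, one_mul]
        · rw [h2, ← map_pow, h3, map_one, one_mul]
      · rintro ⟨h1, h2, h3⟩
        have h1' : ζ ^ (s.1 : ℕ) = 1 := h1
        refine ⟨⟨?_, ?_⟩, ?_⟩
        · rw [h1', one_mul]
          exact h2
        · rw [← map_pow, h1', map_one, one_mul]
          exact h3
        · rw [h2, inv_pow, mul_inv_cancel]
    rw [hA, f3 κ⁻¹ (σ⁻¹ κ)⁻¹ {i : Fin n | ζ ^ (i : ℕ) = 1} ⟨z0, by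
      show ζ ^ (z0 : ℕ) = 1
      rw [hz0, pow_zero], hz0⟩]
    unfold BrF
    push_cast
    field_simp
    ring
  · intro hτa hy
    have h1 := (t3 hτa hy).2
    have hA : ∀ X : Set (SO.SS n V₀), X ⊆ TD σ a κ τ y → A1 κ X = X := by
      intro X hX
      ext s
      constructor
      · exact fun h => h.1
      · intro h
        exact ⟨h, h1 s (hX h)⟩
    rw [gdh ℓ V₀ E₀ hF n U c d σ a ha hκ F (TD σ a κ τ y) (fun s hs => hs.1)]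
    rw [hA _ (subset_refl _), sub_self, zero_add]
    refine finsum_mem_eq_zero_of_forall_eq_zero fun W _ => ?_
    rw [hA _ (fun s hs => hs.1), sub_self, mul_zero]

end Pool.Agent.PP.SE.H41
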