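import Pool.Agent.ASE.Stmts2

/-!
# Squad ASE, row GEC: linear characters and a reflection line
-/

open scoped BigOperators

set_option autoImplicit false

noncomputable section

namespace Pool.Agent.PP.SE.H41

open Pool.Agent.Helper51_AWC Pool.Agent.Helper79_WRA Pool.Agent.PP Pool.Agent.PP.KF
open Pool.Agent.PP.K9 Pool.Agent.PP.K9.H97 Pool.Agent.PP.H75 Pool.Agent.PP.T3 Pool.Agent.PP.SO
open Pool.Agent.PP.SD

section lin

variable {V₀ : Type} [CommGroup V₀] [Finite V₀]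

omit [Finite V₀] in
theorem lin_pow {s : V₀ → ℂ} (hs : s ∈ lin V₀) (v : V₀) (n : ℕ) : s (v ^ n) = s v ^ n := by
  induction n with
  | zero => rw [pow_zero, pow_zero]; exact hs.1
  | succ n ih => rw [pow_succ, pow_succ, hs.2, ih]

omit [Finite V₀] in
theorem lin_inv {s : V₀ → ℂ} (hs : s ∈ lin V₀) (v : V₀) : s v * s v⁻¹ = 1 := by
  rw [← hs.2, mul_inv_cancel, hs.1]

omit [Finite V₀] in
theorem lin_ne {s : V₀ → ℂ} (hs : s ∈ lin V₀) (v : V₀) : s v ≠ 0 := by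
  intro h
  have := lin_inv hs v
  rw [h, zero_mul] at this
  exact zero_ne_one this

/-- the linear character of a character of the quotient -/
def ofQ (A : Subgroup V₀) (φ : V₀ ⧸ A →* ℂˣ) : V₀ → ℂ := fun v => (φ (v : V₀ ⧸ A) : ℂ)

omit [Finite V₀] in
theorem ofQ_mem (A : Subgroup V₀) (φ : V₀ ⧸ A →* ℂˣ) : ofQ A φ ∈ lk A := by
  refine ⟨⟨?_, fun v w => ?_⟩, fun w hw => ?_⟩
  · show ((φ ((1 : V₀) : V₀ ⧸ A) : ℂˣ) : ℂ) = 1
    rw [QuotientGroup.mk_one, map_one, Units.val_one]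
  · show ((φ ((v * w : V₀) : V₀ ⧸ A) : ℂˣ) : ℂ) = _
    rw [QuotientGroup.mk_mul, map_mul, Units.val_mul]
    rfl
  · show ((φ ((w : V₀) : V₀ ⧸ A) : ℂˣ) : ℂ) = 1
    rw [(QuotientGroup.eq_one_iff w).2 hw, map_one, Units.val_one]

omit [Finite V₀] in
theorem ofQ_inj (A : Subgroup V₀) : Function.Injective (ofQ A) := by
  intro φ ψ h
  refine MonoidHom.ext fun q => ?_
  obtain ⟨v, rfl⟩ := QuotientGroup.mk_surjective q
  exact Units.ext (congrFun h v)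

omit [Finite V₀] in
theorem ofQ_surj (A : Subgroup V₀) {s : V₀ → ℂ} (hs : s ∈ lk A) : ∃ φ, ofQ A φ = s := by
  let f : V₀ →* ℂ := ⟨⟨s, hs.1.1⟩, hs.1.2⟩
  have hf : ∀ v, (f.toHomUnits v : ℂ) = s v := fun v => rfl
  refine ⟨QuotientGroup.lift A f.toHomUnits ?_, ?_⟩
  · intro w hw
    refine Units.ext ?_
    rw [hf, Units.val_one]
    exact hs.2 w hw
  · funext v
    show ((QuotientGroup.lift A f.toHomUnits _ (v : V₀ ⧸ A) : ℂˣ) : ℂ) = s v
    rw [QuotientGroup.lift_mk]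
    rfl

omit [Finite V₀] in
theorem lk_range (A : Subgroup V₀) : lk A = Set.range (ofQ A) := by
  ext s
  constructor
  · intro hs
    exact ofQ_surj A hs
  · rintro ⟨φ, rfl⟩
    exact ofQ_mem A φ

theorem lk_ncard (A : Subgroup V₀) : (lk A).ncard = Nat.card (V₀ ⧸ A) := by
  rw [lk_range, ← Set.image_univ, Set.ncard_image_of_injective _ (ofQ_inj A), Set.ncard_univ]
  exact CommGroup.card_monoidHom_of_hasEnoughRootsOfUnity (V₀ ⧸ A) ℂ

theorem lk_finite (A : Subgroup V₀) : (lk A).Finite := by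
  refine Set.finite_of_ncard_ne_zero ?_
  rw [lk_ncard]
  exact Nat.card_pos.ne'

theorem lk_sep (A : Subgroup V₀) {y : V₀} (hy : y ∉ A) : ∃ s ∈ lk A, s y ≠ 1 := by
  have h1 : (y : V₀ ⧸ A) ≠ 1 := fun h => hy ((QuotientGroup.eq_one_iff y).1 h)
  obtain ⟨φ, hφ⟩ := CommGroup.exists_apply_ne_one_of_hasEnoughRootsOfUnity (V₀ ⧸ A) ℂ h1
  refine ⟨ofQ A φ, ofQ_mem A φ, fun h => hφ (Units.ext ?_)⟩
  rw [Units.val_one]
  exact h

omit [Finite V₀] in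
theorem lk_mul {A : Subgroup V₀} {s t : V₀ → ℂ} (hs : s ∈ lk A) (ht : t ∈ lk A) :
    (fun v => s v * t v) ∈ lk A := by
  refine ⟨⟨?_, fun v w => ?_⟩, fun w hw => ?_⟩
  · show s 1 * t 1 = 1
    rw [hs.1.1, ht.1.1, mul_one]
  · show s (v * w) * t (v * w) = s v * t v * (s w * t w)
    rw [hs.1.2, ht.1.2]
    ring
  · show s w * t w = 1
    rw [hs.2 w hw, ht.2 w hw, mul_one]

omit [Finite V₀] in
theorem lk_inv {A : Subgroup V₀} {s : V₀ → ℂ} (hs : s ∈ lk A) :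
    (fun v => s v⁻¹) ∈ lk A := by
  refine ⟨⟨?_, fun v w => ?_⟩, fun w hw => ?_⟩
  · show s 1⁻¹ = 1
    rw [inv_one, hs.1.1]
  · show s (v * w)⁻¹ = s v⁻¹ * s w⁻¹
    rw [mul_inv, hs.1.2]
  · exact hs.2 _ (inv_mem hw)

theorem lk_sum (A : Subgroup V₀) {y : V₀} (hy : y ∉ A) : ∑ᶠ s ∈ lk A, s y = 0 := by
  obtain ⟨t, ht, hty⟩ := lk_sep A hy
  have h1 : ∑ᶠ s ∈ lk A, t y * s y = ∑ᶠ s ∈ lk A, s y := by
    refine finsum_mem_eq_of_bijOn (fun s v => t v * s v) ⟨fun s hs => lk_mul ht hs, ?_, ?_⟩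
      fun s _ => rfl
    · intro s _ s' _ h
      funext v
      exact mul_left_cancel₀ (lin_ne ht.1 v) (congrFun h v)
    · intro s hs
      refine ⟨fun v => t v⁻¹ * s v, lk_mul (lk_inv ht) hs, ?_⟩
      funext v
      show t v * (t v⁻¹ * s v) = s v
      rw [← mul_assoc, lin_inv ht.1, one_mul]
  rw [← mul_finsum_mem (fun s : V₀ → ℂ => s y)] at h1
  have h2 : (t y - 1) * ∑ᶠ s ∈ lk A, s y = 0 := by
    rw [sub_mul, h1, one_mul, sub_self]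
  exact (mul_eq_zero.1 h2).resolve_left (sub_ne_zero.2 hty)

theorem sub_sum (A : Subgroup V₀) {s : V₀ → ℂ} (hs : s ∈ lin V₀) {x : V₀} (hx : x ∈ A)
    (hsx : s x ≠ 1) : ∑ᶠ y ∈ (A : Set V₀), s y = 0 := by
  have h1 : ∑ᶠ y ∈ (A : Set V₀), s x * s y = ∑ᶠ y ∈ (A : Set V₀), s y := by
    refine finsum_mem_eq_of_bijOn (fun y => x * y) ⟨fun y hy => mul_mem hx hy, ?_, ?_⟩
      fun y _ => (hs.2 x y).symm
    · intro y _ y' _ h
      exact mul_left_cancel h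
    · intro y hy
      exact ⟨x⁻¹ * y, mul_mem (inv_mem hx) hy, mul_inv_cancel_left x y⟩
  rw [← mul_finsum_mem (fun y : V₀ => s y)] at h1
  have h2 : (s x - 1) * ∑ᶠ y ∈ (A : Set V₀), s y = 0 := by
    rw [sub_mul, h1, one_mul, sub_self]
  exact (mul_eq_zero.1 h2).resolve_left (sub_ne_zero.2 hsx)

end lin

theorem gec (gea : GeaStmt) : GecStmt := by
  intro ℓ hℓ V₀ _ _ E₀ hF W hW
  obtain ⟨⟨-, -, -, ckW, hinf, -, -, -⟩, g2, g3, g4, g5, g6, g7, g8, -, -⟩ := gea ℓ V₀ E₀ hF W hW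
  have hℓ0 : 0 < ℓ := hℓ.out.pos
  have hcard : ∀ A : Subgroup V₀, Nat.card A = ℓ → Nat.card (V₀ ⧸ A) = ℓ := by
    intro A hA
    have h1 := Subgroup.card_eq_card_quotient_mul_card_subgroup A
    rw [hF.cd, hA, sq] at h1
    exact (Nat.eq_of_mul_eq_mul_right hℓ0 h1).symm
  have hsplit : ∀ v, v = v * (pr ℓ E₀ W v)⁻¹ * pr ℓ E₀ W v := fun v => by
    rw [inv_mul_cancel_right]
  have hnu : ∀ ν ∈ lk (kW E₀ W), ∀ v, ν (pr ℓ E₀ W v) = ν v := by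
    intro ν hν v
    have h1 := congrArg ν (hsplit v)
    rw [hν.1.2, hν.2 _ (g2 v).2, one_mul] at h1
    exact h1.symm
  have hs1 : ∀ s ∈ lk W, ∀ v, s (v * (pr ℓ E₀ W v)⁻¹) = s v := by
    intro s hs v
    have h1 := congrArg s (hsplit v)
    rw [hs.1.2, hs.2 _ (g2 v).1, mul_one] at h1
    exact h1.symm
  have hex : ∀ s ∈ lk W, s ≠ (fun _ => 1) → ∃ y ∈ kW E₀ W, s y ≠ 1 := by
    intro s hs hne
    by_contra hcon
    push Not at hcon
    refine hne (funext fun v => ?_)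
    rw [← hs1 s hs v]
    exact hcon _ (g2 v).2
  have hex' : ∀ ν ∈ lk (kW E₀ W), ν ≠ (fun _ => 1) → ∃ w ∈ W, ν w ≠ 1 := by
    intro ν hν hne
    by_contra hcon
    push Not at hcon
    refine hne (funext fun v => ?_)
    rw [← hnu ν hν v]
    exact hcon _ (g2 v).1
  have hact : ∀ s ∈ lk W, ∀ τ ∈ St E₀ W, (fun v => s (τ v)) ∈ lk W := by
    intro s hs τ hτ
    refine ⟨⟨?_, fun v w => ?_⟩, fun w hw => ?_⟩
    · show s (τ 1) = 1
      rw [map_one, hs.1.1]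
    · show s (τ (v * w)) = s (τ v) * s (τ w)
      rw [map_mul, hs.1.2]
    · show s (τ w) = 1
      rw [hτ.2 w hw, hs.2 w hw]
  have hne1 : ∀ s ∈ lk W, ∀ τ ∈ St E₀ W, s ≠ (fun _ => 1) → (fun v => s (τ v)) ≠ (fun _ => 1) := by
    intro s hs τ hτ hne h
    refine hne (funext fun v => ?_)
    have h1 := congrFun h (τ⁻¹ v)
    simp only [MulAut.apply_inv_self] at h1
    exact h1
  have hne2 : ∀ s ∈ lk W, ∀ τ ∈ St E₀ W, s ≠ (fun _ => 1) → τ ≠ 1 → (fun v => s (τ v)) ≠ s := by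
    intro s hs τ hτ hne hτ1 h
    obtain ⟨y, hy, hsy⟩ := hex s hs hne
    obtain ⟨a, ha⟩ := g8 τ hτ
    have hy1 : y ≠ 1 := fun h1 => hsy (by rw [h1]; exact hs.1.1)
    have h1 : s y ^ a = s y := by
      rw [← lin_pow hs.1, ← ha y hy]
      exact congrFun h y
    have h2 : s y ^ ℓ = 1 := by rw [← lin_pow hs.1, hF.ex, hs.1.1]
    have h3 : orderOf (s y) = ℓ := orderOf_eq_prime h2 hsy
    have ha0 : a ≠ 0 := by
      intro h0
      rw [h0, pow_zero] at h1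
      exact hsy h1.symm
    obtain ⟨b, rfl⟩ := Nat.exists_eq_succ_of_ne_zero ha0
    have h4 : s y ^ b = 1 := by
      rw [Nat.succ_eq_add_one, pow_succ] at h1
      exact mul_right_cancel₀ (lin_ne hs.1 y) (h1.trans (one_mul _).symm)
    have h5 : ℓ ∣ b := by
      rw [← h3]
      exact orderOf_dvd_of_pow_eq_one h4
    obtain ⟨c, rfl⟩ := h5
    refine (g7 τ hτ y hy).2 hτ1 hy1 ?_
    rw [ha y hy, Nat.succ_eq_add_one, pow_succ, pow_mul, hF.ex, one_pow, one_mul]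
  refine ⟨?_, ?_, lk_finite W, lk_finite _, ?_, ?_, ?_, ?_, ?_, ?_, ?_, ?_, ?_, ?_⟩
  · rw [lk_ncard, hcard W hW.1]
  · rw [lk_ncard, hcard _ ckW]
  · intro μ hμ
    refine ⟨⟨⟨?_, fun v w => ?_⟩, fun w hw => ?_⟩, ⟨⟨?_, fun v w => ?_⟩, fun w hw => ?_⟩⟩
    · show μ (pr ℓ E₀ W 1) = 1
      rw [g4 1 (one_mem _), hμ.1]
    · show μ (pr ℓ E₀ W (v * w)) = μ (pr ℓ E₀ W v) * μ (pr ℓ E₀ W w)
      rw [g3, hμ.2]
    · show μ (pr ℓ E₀ W w) = 1
      rw [g5 w hw, hμ.1]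
    · show μ (1 * (pr ℓ E₀ W 1)⁻¹) = 1
      rw [g4 1 (one_mem _), inv_one, mul_one, hμ.1]
    · show μ (v * w * (pr ℓ E₀ W (v * w))⁻¹) = μ (v * (pr ℓ E₀ W v)⁻¹) * μ (w * (pr ℓ E₀ W w)⁻¹)
      rw [g3, mul_inv, mul_mul_mul_comm, hμ.2]
    · show μ (w * (pr ℓ E₀ W w)⁻¹) = 1
      rw [g4 w hw, mul_inv_cancel, hμ.1]
  · intro ν hν s hs
    refine ⟨?_, fun v w => ?_⟩
    · show ν 1 * s 1 = 1
      rw [hν.1.1, hs.1.1, mul_one]
    · show ν (v * w) * s (v * w) = ν v * s v * (ν w * s w)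
      rw [hν.1.2, hs.1.2]
      ring
  · intro ν hν v
    refine ⟨hnu ν hν v, fun τ hτ => ?_⟩
    rw [← hnu ν hν (τ v), g6 τ hτ v, hnu ν hν v]
  · intro s hs v
    exact ⟨hs1 s hs v, hs.2 _ (g2 v).1⟩
  · intro s hs τ hτ
    exact ⟨hact s hs τ hτ, fun hne => ⟨hne1 s hs τ hτ hne, fun hτ1 => hne2 s hs τ hτ hne hτ1⟩⟩
  · intro s hs hne
    have himg : orb E₀ W s = (fun τ : MulAut V₀ => fun v => s (τ v)) '' (St E₀ W : Set (MulAut V₀)) := by
      ext s'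
      constructor
      · rintro ⟨τ, hτ, rfl⟩
        exact ⟨τ, hτ, rfl⟩
      · rintro ⟨τ, hτ, rfl⟩
        exact ⟨τ, hτ, rfl⟩
    refine ⟨?_, ⟨1, one_mem _, rfl⟩, ?_⟩
    · rw [himg, Set.InjOn.ncard_image]
      · exact (Nat.card_coe_set_eq _).symm
      · intro τ hτ τ' hτ' h
        have h1 : (fun v => s ((τ * τ'⁻¹) v)) = s := by
          funext v
          have h2 := congrFun h (τ'⁻¹ v)
          simp only [MulAut.apply_inv_self] at h2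
          rw [MulAut.mul_apply]
          exact h2
        by_contra hne'
        exact hne2 s hs (τ * τ'⁻¹) (mul_mem hτ (inv_mem hτ')) hne
          (fun h3 => hne' (mul_inv_eq_one.1 h3)) h1
    · rintro _ ⟨τ, hτ, rfl⟩
      ext s'
      constructor
      · rintro ⟨σ, hσ, rfl⟩
        exact ⟨τ * σ, mul_mem hτ hσ, rfl⟩
      · rintro ⟨σ, hσ, rfl⟩
        refine ⟨τ⁻¹ * σ, mul_mem (inv_mem hτ) hσ, ?_⟩
        funext v
        show s (σ v) = s (τ ((τ⁻¹ * σ) v))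
        rw [MulAut.mul_apply, MulAut.apply_inv_self]
  · intro y hy hy1
    refine lk_sum W fun hyW => hy1 ?_
    have h1 : y ∈ W ⊓ kW E₀ W := ⟨hyW, hy⟩
    rw [hinf] at h1
    exact Subgroup.mem_bot.1 h1
  · intro s hs hne
    obtain ⟨y, hy, hsy⟩ := hex s hs hne
    exact sub_sum _ hs.1 hy hsy
  · intro w hw hw1
    refine lk_sum (kW E₀ W) fun hwk => hw1 ?_
    have h1 : w ∈ W ⊓ kW E₀ W := ⟨hw, hwk⟩
    rw [hinf] at h1
    exact Subgroup.mem_bot.1 h1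
  · intro ν hν hne
    obtain ⟨w, hw, hνw⟩ := hex' ν hν hne
    exact sub_sum _ hν.1 hw hνw

end Pool.Agent.PP.SE.H41
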