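import Pool.Agent.Helper41_ASE.GDV
import Pool.Agent.Helper41_ASE.GEC
import Pool.Agent.ASE.Stmts2b

/-!
# Squad ASE, row RFP: fixed characters
-/

open scoped BigOperators

set_option autoImplicit false

noncomputable section

namespace Pool.Agent.PP.SE.H41

open Pool.Agent.Helper51_AWC Pool.Agent.Helper79_WRA Pool.Agent.PP Pool.Agent.PP.KF
open Pool.Agent.PP.K9 Pool.Agent.PP.K9.H97 Pool.Agent.PP.H75 Pool.Agent.PP.T3 Pool.Agent.PP.SO
open Pool.Agent.PP.SD

attribute [local instance] Ideal.Quotient.field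

theorem rfp_mem_mp {V₀ : Type} [CommGroup V₀] (σ : MulAut V₀) (W : Subgroup V₀) (v : V₀) :
    v ∈ mp σ W ↔ ∃ w ∈ W, σ w = v := by
  unfold mp
  rw [Subgroup.mem_map]
  rfl

theorem rfp (rfm : RfmStmt) (acb : AcbStmt) (czb : CzbStmt) (gec : GecStmt) (vxm : VxmStmt) :
    RfpStmt := by
  intro ℓ hℓ M _ hM h2 V₀ G _ _ _ _ E₀ hF B hB W hW N e O hCy D hDw hEv
  obtain ⟨-, -, -, fk, -, -, hnu, -, -, -, -, -, -, -⟩ := gec ℓ V₀ E₀ hF W hW
  obtain ⟨a1, a2⟩ := acb ℓ M hM h2 V₀ G E₀ hF B hB.toSb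
  obtain ⟨-, -, -, -, -, -, hcl, hCf⟩ := czb ℓ M hM h2 V₀ G E₀ hF B hB.toSb W
  have hone : (fun _ => 1 : V₀ → ℂ) ∈ lk (kW E₀ W) :=
    ⟨⟨rfl, fun _ _ => (mul_one _).symm⟩, fun _ _ => rfl⟩
  have hLv := hCy.lv _ hone
  refine ⟨?_, ?_⟩
  · intro g hg
    have hgW : mp g W = W := by
      ext v
      rw [rfp_mem_mp]
      constructor
      · rintro ⟨w, hw, rfl⟩
        rw [hg.2 w hw]
        exact hw
      · intro hv
        exact ⟨v, hv, hg.2 v hv⟩
    have hfix : ∀ χ ∈ Ch B W, ac B g χ = χ := by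
      intro χ hχ
      have htt : tt B g ∈ B.C W := by
        unfold Bk.C
        rw [Subgroup.mem_centralizer_iff]
        rintro _ ⟨w, hw, rfl⟩
        have h3 := (a1 g hg.1).2 w
        rw [hg.2 w hw, mul_inv_eq_iff_eq_mul] at h3
        exact h3.symm
      funext x
      have h4 := (hcl χ hχ).2.2.2.2 (tt B g)⁻¹ (inv_mem htt) x
      rw [inv_inv] at h4
      exact h4
    rw [hDw.df g hg.1 hgW]
    have h5 : {χ | χ ∈ Iv B W (fun _ => 1) ∧ χ ∈ N ∧ ac B g χ = χ} =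
        {χ | χ ∈ Iv B W (fun _ => 1) ∧ χ ∈ N} := by
      ext χ
      constructor
      · rintro ⟨h6, h7, -⟩
        exact ⟨h6, h7⟩
      · rintro ⟨h6, h7⟩
        exact ⟨h6, h7, hfix χ h6.1⟩
    rw [h5, hLv.cN]
  · intro g hg hgW hgS
    obtain ⟨-, -, a3, -, -, -, -, -⟩ := a2 W g hg
    -- the set of the fixed characters
    have hsplit : {χ | χ ∈ Ch B W ∧ ac B g χ = χ} =
        {χ | χ ∈ Iv B W (fun _ => 1) ∧ χ ∈ N ∧ ac B g χ = χ} ∪
        {χ | χ ∈ Iv B W (fun _ => 1) ∧ χ ∉ N ∧ ac B g χ = χ} := by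
      ext χ
      constructor
      · rintro ⟨hχ, hfix⟩
        have hI : χ ∈ Iv B W (fun _ => 1) := by
          obtain ⟨ν, hν, hχν⟩ := (vxm ℓ M hM h2 V₀ G E₀ hF B hB W hW χ hχ).2.1.2.2.2.1
          have h3 : ∀ w ∈ W, ν (g w) = ν w := by
            intro w hw
            have hgw : g w ∈ W := by
              rw [← hgW, rfp_mem_mp]
              exact ⟨w, hw, rfl⟩
            rw [← hχν.2 _ hgw, ← hχν.2 _ hw]
            have h4 := (a3 χ hχ).2.2.2.1 w
            rw [hfix] at h4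
            exact h4
          obtain ⟨w₁, hw₁, hne⟩ : ∃ w ∈ W, g w ≠ w := by
            by_contra hcon
            push Not at hcon
            exact hgS ⟨hg, hcon⟩
          have hgw₁ : g w₁ ∈ W := by
            rw [← hgW, rfp_mem_mp]
            exact ⟨w₁, hw₁, rfl⟩
          have hu1 : g w₁ * w₁⁻¹ ≠ 1 := fun h => hne (mul_inv_eq_one.1 h)
          have hz := GDV.zpow_eq W hW.1 (mul_mem hgw₁ (inv_mem hw₁)) hu1
          have hνu : ν (g w₁ * w₁⁻¹) = 1 := by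
            rw [hν.1.2, h3 w₁ hw₁, ← hν.1.2, mul_inv_cancel, hν.1.1]
          have h5 : ∀ w ∈ W, ν w = 1 := by
            intro w hw
            rw [← hz] at hw
            obtain ⟨k, hk⟩ := (Submonoid.mem_powers_iff _ _).1
              (mem_powers_iff_mem_zpowers.2 hw)
            rw [← hk, lin_pow hν.1, hνu, one_pow]
          exact ⟨hχ, fun w hw => by rw [hχν.2 w hw, h5 w hw]⟩
        by_cases hN : χ ∈ N
        · exact Or.inl ⟨hI, hN, hfix⟩
        · exact Or.inr ⟨hI, hN, hfix⟩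
      · rintro (⟨h3, -, h4⟩ | ⟨h3, -, h4⟩)
        · exact ⟨h3.1, h4⟩
        · exact ⟨h3.1, h4⟩
    have hf1 : {χ | χ ∈ Iv B W (fun _ => 1) ∧ χ ∈ N ∧ ac B g χ = χ}.Finite :=
      hCf.subset fun χ hχ => hχ.1.1
    have hf2 : {χ | χ ∈ Iv B W (fun _ => 1) ∧ χ ∉ N ∧ ac B g χ = χ}.Finite :=
      hCf.subset fun χ hχ => hχ.1.1
    have hdis : Disjoint {χ | χ ∈ Iv B W (fun _ => 1) ∧ χ ∈ N ∧ ac B g χ = χ}
        {χ | χ ∈ Iv B W (fun _ => 1) ∧ χ ∉ N ∧ ac B g χ = χ} := by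
      rw [Set.disjoint_left]
      rintro χ ⟨-, h3, -⟩ ⟨-, h4, -⟩
      exact h4 h3
    rw [hsplit, Set.ncard_union_eq hdis hf1 hf2, Nat.cast_add, hDw.df g hg hgW]
    congr 2
    -- the exceptional characters
    have hO : ∀ χ ∈ Ch B W, χ ∉ N → O (ac B g χ) = {s | (fun v => s (g v)) ∈ O χ} := by
      intro χ hχ hN
      have hCy' : Cy ℓ E₀ B (mp g W) N e O := by
        rw [hgW]
        exact hCy
      exact (rfm ℓ M hM h2 V₀ G E₀ hF B hB W hW g hg (tt B g) (a1 g hg).1 (a1 g hg).2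
        N N e e O O hCy hCy' (fun χ hχ => (hEv g hg hgW χ hχ).1) χ hχ).2 hN
    have hfixO : ∀ χ ∈ Iv B W (fun _ => 1), χ ∉ N →
        (ac B g χ = χ ↔ {s' | ∃ s ∈ O χ, s' = fun x => s (g x)} = O χ) := by
      intro χ hχ hN
      have hOχ := hO χ hχ.1 hN
      constructor
      · intro hfix
        rw [hfix] at hOχ
        ext s
        constructor
        · rintro ⟨s', hs', rfl⟩
          rw [hOχ] at hs'
          exact hs'
        · intro hs
          refine ⟨fun v => s (g⁻¹ v), ?_, ?_⟩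
          · rw [hOχ]
            show (fun v => s (g⁻¹ (g v))) ∈ O χ
            simp only [MulAut.inv_apply_self]
            exact hs
          · funext x
            show s x = s (g⁻¹ (g x))
            rw [MulAut.inv_apply_self]
      · intro hset
        have h3 : O (ac B g χ) = O χ := by
          rw [hOχ]
          ext s
          constructor
          · intro hs
            have hs' : (fun v => s (g v)) ∈ O χ := hs
            rw [← hset] at hs'
            obtain ⟨s', hs'', h4⟩ := hs'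
            have h5 : s = s' := by
              funext v
              have h6 := congrFun h4 (g⁻¹ v)
              simp only [MulAut.apply_inv_self] at h6
              exact h6
            rw [h5]
            exact hs''
          · intro hs
            show (fun v => s (g v)) ∈ O χ
            rw [← hset]
            exact ⟨s, hs, rfl⟩
        obtain ⟨⟨s, hs, hs1, hOs⟩, -⟩ := hLv.vX χ hχ hN
        obtain ⟨ψ, -, huniq⟩ := hLv.bX s hs hs1
        have hI' : ac B g χ ∈ Iv B W (fun _ => 1) := by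
          have h4 := (a3 χ hχ.1).1
          rw [hgW] at h4
          refine ⟨h4, fun w hw => ?_⟩
          rw [← hgW, rfp_mem_mp] at hw
          obtain ⟨w', hw', rfl⟩ := hw
          rw [(a3 χ hχ.1).2.2.2.1 w', hχ.2 w' hw']
        rw [huniq _ ⟨hI', fun h => hN ((hEv g hg hgW χ hχ.1).1.1 h), h3.trans hOs⟩,
          huniq χ ⟨hχ, hN, hOs⟩]
    have himg : O '' {χ | χ ∈ Iv B W (fun _ => 1) ∧ χ ∉ N ∧ ac B g χ = χ} =
        {O : Set (V₀ → ℂ) | ∃ s ∈ lin V₀, (∃ x, s x ≠ 1) ∧ (∀ w ∈ W, s w = 1) ∧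
          O = {s' | ∃ τ ∈ St E₀ W, s' = fun x => s (τ x)} ∧
          {s' | ∃ s ∈ O, s' = fun x => s (g x)} = O} := by
      ext O'
      constructor
      · rintro ⟨χ, ⟨hχ, hN, hfix⟩, rfl⟩
        obtain ⟨⟨s, hs, hs1, hOs⟩, -⟩ := hLv.vX χ hχ hN
        refine ⟨s, hs.1, ?_, hs.2, hOs, (hfixO χ hχ hN).1 hfix⟩
        by_contra hcon
        push Not at hcon
        exact hs1 (funext hcon)
      · rintro ⟨s, hs, ⟨x, hx⟩, hsW, hO1, hO2⟩
        have hs1 : s ≠ fun _ => 1 := fun h => hx (by rw [h])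
        obtain ⟨χ, ⟨hχ, hN, hOs⟩, -⟩ := hLv.bX s ⟨hs, hsW⟩ hs1
        have hOO : O χ = O' := by
          rw [hOs, hO1]
          rfl
        refine ⟨χ, ⟨hχ, hN, ?_⟩, hOO⟩
        rw [hfixO χ hχ hN, hOO]
        exact hO2
    have hinj : Set.InjOn O {χ | χ ∈ Iv B W (fun _ => 1) ∧ χ ∉ N ∧ ac B g χ = χ} := by
      rintro χ ⟨hχ, hN, -⟩ ψ ⟨hψ, hN', -⟩ h
      obtain ⟨⟨s, hs, hs1, hOs⟩, -⟩ := hLv.vX χ hχ hN
      obtain ⟨θ, -, huniq⟩ := hLv.bX s hs hs1
      rw [huniq χ ⟨hχ, hN, hOs⟩, huniq ψ ⟨hψ, hN', h ▸ hOs⟩]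
    unfold oW
    rw [← himg, hinj.ncard_image]

end Pool.Agent.PP.SE.H41
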