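import Pool.Agent.Helper41_ASE.GEC
import Pool.Agent.Helper52_ASE.XIR
import Pool.Agent.Helper57_K9.Stmts3

/-!
# Squad ASE, row STR: the structure of the characters with a given central character
-/

open scoped BigOperators

set_option autoImplicit false

noncomputable section

namespace Pool.Agent.PP.SE.H41

open Pool.Agent.Helper51_AWC Pool.Agent.Helper79_WRA Pool.Agent.PP Pool.Agent.PP.KF
open Pool.Agent.PP.K9 Pool.Agent.PP.K9.H97 Pool.Agent.PP.H75 Pool.Agent.PP.T3 Pool.Agent.PP.SO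
open Pool.Agent.PP.SD

attribute [local instance] Ideal.Quotient.field

/-! ### Combinatorics -/

theorem sgn_cases {x : ℤ} (h : x * x = 1) : x = 1 ∨ x = -1 := mul_self_eq_one_iff.1 h

/-- integral vectors with Gram matrix `I + n J` -/
theorem core (grb : K9.GrbStmt) (m n : ℕ) (hm : 0 < m) (ι : Type) [Fintype ι] [DecidableEq ι]
    (b : Fin m → ι → ℤ) (hG : ∀ j j', ∑ i, b j i * b j' i = (if j = j' then 1 else 0) + (n : ℤ))
    (hne : ∀ i, ∃ j, b j i ≠ 0) :
    Fintype.card ι ≤ n + m ∧ (Fintype.card ι = n + m → ∃ (r : Fin m → ι) (ε : Fin m → ℤ),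
      Function.Injective r ∧ (∀ j, ε j = 1 ∨ ε j = -1) ∧
      (∀ j j', b j' (r j) = if j' = j then ε j else 0) ∧
      ∀ i, (∀ j, i ≠ r j) → ∃ w : ℤ, (w = 1 ∨ w = -1) ∧ ∀ j, b j i = w) := by
  obtain ⟨r, σ, t, w, hr, hσ, hb, hw, hmt⟩ := grb m n hm ι b hG
  let j₀ : Fin m := ⟨0, hm⟩
  have hσ2 : ∀ j, σ j = 1 ∨ σ j = -1 := fun j => sgn_cases (hσ j)
  -- norm of w
  have h1 : ∑ i, w i * w i = n - 2 * t := by
    have h2 := hG j₀ j₀
    rw [if_pos rfl] at h2
    have h3 : ∀ i, b j₀ i * b j₀ i = w i * w i +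
        if i = r j₀ then 2 * (w i * σ j₀) + σ j₀ * σ j₀ else 0 := by
      intro i
      rw [hb j₀ i]
      split_ifs <;> ring
    rw [Finset.sum_congr rfl fun i _ => h3 i, Finset.sum_add_distrib, Finset.sum_ite_eq'
      Finset.univ (r j₀), if_pos (Finset.mem_univ _), hw j₀] at h2
    have h4 : t * σ j₀ * σ j₀ = t := by rw [mul_assoc, hσ, mul_one]
    rw [h4, hσ] at h2
    linarith
  -- the set of the other indices
  set R : Finset ι := Finset.univ.image r with hR
  have hRc : R.card = m := by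
    rw [hR, Finset.card_image_of_injective _ hr, Finset.card_univ, Fintype.card_fin]
  have h2 : ∑ i ∈ R, w i * w i = m * (t * t) := by
    rw [hR, Finset.sum_image fun a _ b _ h => hr h]
    have h3 : ∀ j ∈ (Finset.univ : Finset (Fin m)), w (r j) * w (r j) = t * t := by
      intro j _
      rw [hw j]
      have := hσ j
      linear_combination (t * t) * this
    rw [Finset.sum_congr rfl h3, Finset.sum_const, Finset.card_univ, Fintype.card_fin, nsmul_eq_mul]
  have h3 : ∑ i ∈ Rᶜ, w i * w i = n - 2 * t - m * (t * t) := by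
    have := Finset.sum_add_sum_compl R fun i => w i * w i
    rw [h1, h2] at this
    linarith
  have hbw : ∀ i, (∀ j, i ≠ r j) → ∀ j, b j i = w i := by
    intro i hi j
    rw [hb j i, if_neg (hi j), add_zero]
  have hRm : ∀ i, i ∈ Rᶜ ↔ ∀ j, i ≠ r j := by
    intro i
    rw [Finset.mem_compl, hR, Finset.mem_image]
    constructor
    · intro h j hj
      exact h ⟨j, Finset.mem_univ _, hj.symm⟩
    · rintro h ⟨j, -, hj⟩
      exact h j hj.symm
  have h4 : ∀ i ∈ Rᶜ, 1 ≤ w i * w i := by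
    intro i hi
    rw [hRm] at hi
    obtain ⟨j, hj⟩ := hne i
    rw [hbw i hi j] at hj
    have : 0 < w i * w i := mul_self_pos.2 hj
    linarith
  have h5 : (Rᶜ.card : ℤ) ≤ ∑ i ∈ Rᶜ, w i * w i := by
    have := Finset.sum_le_sum h4
    rw [Finset.sum_const, nsmul_eq_mul, mul_one] at this
    exact this
  have h6 : R.card + Rᶜ.card = Fintype.card ι := by
    rw [Finset.card_add_card_compl]
  have h7 : 0 ≤ t * (m * t + 2) ∧ (t * (m * t + 2) = 0 → t = 0 ∨ ((m : ℤ) = 2 ∧ t = -1) ∨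
      ((m : ℤ) = 1 ∧ t = -2)) := by
    have hm1 : (1 : ℤ) ≤ m := by exact_mod_cast hm
    have h8 : t * (m * t + 2) = m * t * t + 2 * t := by ring
    rcases lt_trichotomy t 0 with ht | ht | ht
    · by_cases ht1 : t = -1
      · subst ht1
        have hm2 : (2 : ℤ) ≤ m := by
          by_contra hcon
          have : (m : ℤ) = 1 := by linarith
          exact hmt (by rw [this]; norm_num)
        refine ⟨by linarith, fun h => Or.inr (Or.inl ⟨by linarith, rfl⟩)⟩
      · have ht2 : t ≤ -2 := by omega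
        have h9 : (m : ℤ) * t ≤ -2 := by nlinarith
        refine ⟨by nlinarith, fun h => ?_⟩
        rcases mul_eq_zero.1 h with h | h
        · exact Or.inl h
        · have hm3 : (m : ℤ) ≤ 1 := by nlinarith
          have hm4 : (m : ℤ) = 1 := le_antisymm hm3 hm1
          rw [hm4] at h
          exact Or.inr (Or.inr ⟨hm4, by linarith⟩)
    · subst ht
      exact ⟨by norm_num, fun _ => Or.inl rfl⟩
    · have h9 : 0 < (m : ℤ) * t := by positivity
      refine ⟨by positivity, fun h => ?_⟩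
      rcases mul_eq_zero.1 h with h | h
      · exact Or.inl h
      · linarith
  have h8 : (Fintype.card ι : ℤ) ≤ n + m - t * (m * t + 2) := by
    have : ((R.card + Rᶜ.card : ℕ) : ℤ) = Fintype.card ι := by rw [h6]
    push_cast at this
    rw [← this, hRc]
    have h9 : t * (m * t + 2) = m * (t * t) + 2 * t := by ring
    linarith
  refine ⟨by have := h7.1; zify; linarith, fun hc => ?_⟩
  have h9 : t * (m * t + 2) = 0 := by
    rw [hc] at h8
    push_cast at h8
    exact le_antisymm (by linarith) h7.1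
  have h10 : (Rᶜ.card : ℤ) = ∑ i ∈ Rᶜ, w i * w i := by
    rw [h3]
    have h11 : ((R.card + Rᶜ.card : ℕ) : ℤ) = Fintype.card ι := by rw [h6]
    rw [hc, hRc] at h11
    push_cast at h11
    have h12 : t * (m * t + 2) = m * (t * t) + 2 * t := by ring
    linarith
  have h11 : ∀ i ∈ Rᶜ, w i * w i = 1 := by
    have h12 : ∑ i ∈ Rᶜ, (1 : ℤ) = ∑ i ∈ Rᶜ, w i * w i := by
      rw [← h10, Finset.sum_const, nsmul_eq_mul, mul_one]
    intro i hi
    exact ((Finset.sum_eq_sum_iff_of_le h4).1 h12 i hi).symm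
  have hlast : ∀ i, (∀ j, i ≠ r j) → ∃ w' : ℤ, (w' = 1 ∨ w' = -1) ∧ ∀ j, b j i = w' :=
    fun i hi => ⟨w i, sgn_cases (h11 i ((hRm i).2 hi)), hbw i hi⟩
  have hwr : ∀ j j', b j' (r j) = t * σ j + if j' = j then σ j' else 0 := by
    intro j j'
    rw [hb j' (r j), hw j]
    congr 1
    by_cases hjj : j' = j
    · rw [if_pos hjj, if_pos (by rw [hjj])]
    · rw [if_neg hjj, if_neg (fun h => hjj (hr h).symm)]
  rcases h7.2 h9 with ht | ⟨hm2, ht⟩ | ⟨hm1, ht⟩
  · refine ⟨r, σ, hr, hσ2, ?_, hlast⟩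
    intro j j'
    rw [hwr, ht, zero_mul, zero_add]
    by_cases hjj : j' = j
    · rw [if_pos hjj, if_pos hjj, hjj]
    · rw [if_neg hjj, if_neg hjj]
  · have hm2' : m = 2 := by exact_mod_cast hm2
    subst hm2'
    refine ⟨fun j => r (1 - j), fun j => - σ (1 - j), ?_, ?_, ?_, ?_⟩
    · intro j j' h
      have := hr h
      revert this
      fin_cases j <;> fin_cases j' <;> simp
    · intro j
      rcases hσ2 (1 - j) with h | h
      · right
        show - σ (1 - j) = -1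
        rw [h]
      · left
        show - σ (1 - j) = 1
        rw [h]
        norm_num
    · intro j j'
      show b j' (r (1 - j)) = if j' = j then - σ (1 - j) else 0
      rw [hwr, ht]
      by_cases hjj : j' = j
      · rw [if_pos hjj, if_neg]
        · ring
        · subst hjj
          fin_cases j' <;> simp
      · have hj' : j' = 1 - j := by
          revert hjj
          fin_cases j <;> fin_cases j' <;> simp
        rw [if_neg hjj, if_pos hj', hj']
        ring
    · intro i hi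
      refine hlast i fun j => ?_
      have := hi (1 - j)
      have h12 : (1 : Fin 2) - (1 - j) = j := by fin_cases j <;> rfl
      simp only [h12] at this
      exact this
  · have hm1' : m = 1 := by exact_mod_cast hm1
    subst hm1'
    refine ⟨r, fun j => - σ j, hr, ?_, ?_, hlast⟩
    · intro j
      rcases hσ2 j with h | h
      · right
        show - σ j = -1
        rw [h]
      · left
        show - σ j = 1
        rw [h]
        norm_num
    · intro j j'
      have hjj : j' = j := Subsingleton.elim _ _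
      show b j' (r j) = if j' = j then - σ j else 0
      rw [hwr, ht, if_pos hjj, if_pos hjj, hjj]
      ring

/-! ### Orbits -/

theorem orbits {V₀ : Type} [CommGroup V₀] [Finite V₀] (E₀ : Subgroup (MulAut V₀)) (W : Subgroup V₀)
    (ℓ n : ℕ) (hn : 0 < n) (hW : (lk W).ncard = ℓ) (hℓ : 1 < ℓ)
    (horb : ∀ s ∈ lk W, s ≠ (fun _ => 1) → (orb E₀ W s).ncard = n ∧ s ∈ orb E₀ W s ∧
      ∀ s' ∈ orb E₀ W s, orb E₀ W s' = orb E₀ W s)
    (hst : ∀ s ∈ lk W, s ≠ (fun _ => 1) → ∀ s' ∈ orb E₀ W s, s' ∈ lk W ∧ s' ≠ fun _ => 1) :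
    ∃ (m : ℕ) (sj : Fin m → (V₀ → ℂ)), 0 < m ∧ m * n = ℓ - 1 ∧
      (∀ j, sj j ∈ lk W ∧ sj j ≠ fun _ => 1) ∧
      (∀ j j', orb E₀ W (sj j) = orb E₀ W (sj j') → j = j') ∧
      ∀ s ∈ lk W, s ≠ (fun _ => 1) → ∃ j, orb E₀ W s = orb E₀ W (sj j) := by
  classical
  set L : Finset (V₀ → ℂ) := (lk_finite W).toFinset.erase fun _ => 1 with hL
  have mL : ∀ s, s ∈ L ↔ s ∈ lk W ∧ s ≠ fun _ => 1 := by
    intro s
    rw [hL, Finset.mem_erase, Set.Finite.mem_toFinset, and_comm]
  have hone : (fun _ => 1 : V₀ → ℂ) ∈ (lk_finite W).toFinset := by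
    rw [Set.Finite.mem_toFinset]
    exact ⟨⟨rfl, fun _ _ => (mul_one _).symm⟩, fun _ _ => rfl⟩
  have hLc : L.card = ℓ - 1 := by
    rw [hL, Finset.card_erase_of_mem hone, ← Set.ncard_eq_toFinset_card (lk W) (lk_finite W), hW]
  set P : Finset (Set (V₀ → ℂ)) := L.image (orb E₀ W) with hP
  have hfib : ∀ o ∈ P, (L.filter fun a => orb E₀ W a = o).card = n := by
    intro o ho
    rw [hP, Finset.mem_image] at ho
    obtain ⟨s, hs, rfl⟩ := ho
    have hs' := (mL s).1 hs
    obtain ⟨h1, h2, h3⟩ := horb s hs'.1 hs'.2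
    have h4 : ((L.filter fun a => orb E₀ W a = orb E₀ W s : Finset _) : Set (V₀ → ℂ)) =
        orb E₀ W s := by
      ext a
      rw [Finset.mem_coe, Finset.mem_filter, mL]
      constructor
      · rintro ⟨⟨ha, ha1⟩, hao⟩
        rw [← hao]
        exact (horb a ha ha1).2.1
      · intro ha
        exact ⟨hst s hs'.1 hs'.2 a ha, h3 a ha⟩
    rw [← Set.ncard_coe_finset, h4, h1]
  have hcard : P.card * n = ℓ - 1 := by
    rw [← hLc, Finset.card_eq_sum_card_image (orb E₀ W) L, Finset.sum_congr rfl hfib,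
      Finset.sum_const, smul_eq_mul]
  have hch : ∀ j : Fin P.card, ∃ s ∈ L, orb E₀ W s = (P.equivFin.symm j : Set (V₀ → ℂ)) := by
    intro j
    exact Finset.mem_image.1 (P.equivFin.symm j).2
  choose sj hsj hsjo using hch
  refine ⟨P.card, sj, ?_, hcard, fun j => (mL _).1 (hsj j), ?_, ?_⟩
  · rcases Nat.eq_zero_or_pos P.card with h | h
    · rw [h, zero_mul] at hcard
      omega
    · exact h
  · intro j j' h
    rw [hsjo, hsjo] at h
    exact P.equivFin.symm.injective (Subtype.ext h)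
  · intro s hs hs1
    have h1 : orb E₀ W s ∈ P := by
      rw [hP]
      exact Finset.mem_image_of_mem _ ((mL s).2 ⟨hs, hs1⟩)
    refine ⟨P.equivFin ⟨_, h1⟩, ?_⟩
    rw [hsjo, Equiv.symm_apply_apply]

/-! ### The structure -/

theorem str (gec : GecStmt) (vxm : VxmStmt) (ibv : IbvStmt) (cnt : CntStmt) (grb : K9.GrbStmt) :
    StrStmt := by
  intro ℓ hℓ M _ hM h2 V₀ G _ _ _ _ E₀ hF B hB W hW
  classical
  obtain ⟨cW, ck, -, fk, -, -, hnu, hsw, hst, horb, hsum1, hsum2, -, -⟩ := gec ℓ V₀ E₀ hF W hW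
  have hn : 0 < nS E₀ W := by
    have := hW.2
    omega
  have hst' : ∀ s ∈ lk W, s ≠ (fun _ => 1) → ∀ s' ∈ orb E₀ W s, s' ∈ lk W ∧ s' ≠ fun _ => 1 := by
    rintro s hs hs1 _ ⟨τ, hτ, rfl⟩
    exact ⟨(hst s hs τ hτ).1, ((hst s hs τ hτ).2 hs1).1⟩
  obtain ⟨m, sj, hm, hmn, hsj, hsji, hsjs⟩ := orbits E₀ W ℓ (nS E₀ W) hn cW hℓ.out.one_lt horb hst'
  obtain ⟨hCf, hCn⟩ := cnt ℓ M hM h2 V₀ G E₀ hF B hB.toSb W hW
  set n := nS E₀ W with hndef
  let j₀ : Fin m := ⟨0, hm⟩
  -- the set of the nontrivial characters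
  set L : Finset (V₀ → ℂ) := (lk_finite W).toFinset.erase fun _ => 1 with hL
  have mL : ∀ s, s ∈ L ↔ s ∈ lk W ∧ s ≠ fun _ => 1 := by
    intro s
    rw [hL, Finset.mem_erase, Set.Finite.mem_toFinset, and_comm]
  have hone : (fun _ => 1 : V₀ → ℂ) ∈ (lk_finite W).toFinset := by
    rw [Set.Finite.mem_toFinset]
    exact ⟨⟨rfl, fun _ _ => (mul_one _).symm⟩, fun _ _ => rfl⟩
  have hLs : ∀ y ∈ kW E₀ W, y ≠ 1 → ∑ s ∈ L, s y = -1 := by
    intro y hy hy1
    have h3 := hsum1 y hy hy1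
    rw [finsum_mem_eq_finite_toFinset_sum _ (lk_finite W), ← Finset.add_sum_erase _ _ hone] at h3
    linear_combination h3
  have hLset : ({s | s ∈ lk W ∧ s ≠ fun _ => 1} : Set (V₀ → ℂ)) = (L : Set (V₀ → ℂ)) := by
    ext s
    rw [Finset.mem_coe, mL]
    rfl
  -- the sum over an orbit
  have horbs : ∀ j y, ∑ᶠ s ∈ orb E₀ W (sj j), s y =
      ∑ s ∈ L.filter fun s => orb E₀ W s = orb E₀ W (sj j), s y := by
    intro j y
    have h3 : orb E₀ W (sj j) = ((L.filter fun s => orb E₀ W s = orb E₀ W (sj j) : Finset _) :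
        Set (V₀ → ℂ)) := by
      ext a
      rw [Finset.mem_coe, Finset.mem_filter, mL]
      constructor
      · intro ha
        exact ⟨hst' _ (hsj j).1 (hsj j).2 a ha, (horb _ (hsj j).1 (hsj j).2).2.2 a ha⟩
      · rintro ⟨⟨ha, ha1⟩, hao⟩
        rw [← hao]
        exact (horb a ha ha1).2.1
    calc ∑ᶠ s ∈ orb E₀ W (sj j), s y = ∑ᶠ s ∈ ((L.filter fun s => orb E₀ W s = orb E₀ W (sj j) :
        Finset _) : Set (V₀ → ℂ)), s y := by rw [← h3]
      _ = _ := finsum_mem_coe_finset _ _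
  -- one central character
  have key : ∀ ν ∈ lk (kW E₀ W), (Iv B W ν).ncard ≤ n + m ∧ ((Iv B W ν).ncard = n + m →
      ∃ (r : Fin m → (G → ℂ)) (ε : Fin m → ℤ) (b : (G → ℂ) → (V₀ → ℂ) → ℤ),
        Function.Injective r ∧ (∀ j, r j ∈ Iv B W ν) ∧ (∀ j, ε j = 1 ∨ ε j = -1) ∧
        (∀ j, ∀ s ∈ L, b (r j) s = if orb E₀ W s = orb E₀ W (sj j) then ε j else 0) ∧
        (∀ χ ∈ Iv B W ν, (∀ j, χ ≠ r j) → (b χ (sj j₀) = 1 ∨ b χ (sj j₀) = -1) ∧
          ∀ s ∈ L, b χ s = b χ (sj j₀)) ∧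
        ∀ χ ∈ Iv B W ν, ∀ y ∈ kW E₀ W, y ≠ 1 → vx B χ y = ∑ s ∈ L, (b χ s : ℂ) * s y) := by
    intro ν hν
    obtain ⟨b, hb1, hb2⟩ := ibv ℓ M hM h2 V₀ G E₀ hF B hB W hW ν hν
    have hIf : (Iv B W ν).Finite := hCf.subset fun χ hχ => hχ.1
    haveI : Fintype (Iv B W ν) := hIf.fintype
    have hbo : ∀ χ ∈ Iv B W ν, ∀ s ∈ lk W, ∀ s' ∈ orb E₀ W s, b χ s' = b χ s := by
      rintro χ hχ s hs _ ⟨τ, hτ, rfl⟩
      exact (hb1 χ hχ).2.1 s hs τ hτ
    have hbo' : ∀ χ ∈ Iv B W ν, ∀ s ∈ L, ∀ j, orb E₀ W s = orb E₀ W (sj j) → b χ s = b χ (sj j) := by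
      intro χ hχ s hs j h
      rw [mL] at hs
      refine hbo χ hχ (sj j) (hsj j).1 s ?_
      rw [← h]
      exact (horb s hs.1 hs.2).2.1
    have hsumI : ∀ f : (G → ℂ) → ℤ, ∑ i : Iv B W ν, f i = ∑ᶠ χ ∈ Iv B W ν, f χ := by
      intro f
      rw [← finsum_set_coe_eq_finsum_mem, finsum_eq_sum_of_fintype]
    obtain ⟨c1, c2⟩ := core grb m n hm (Iv B W ν) (fun j i => b i (sj j)) (by
      intro j j'
      rw [hsumI fun χ => b χ (sj j) * b χ (sj j')]
      by_cases hjj : j = j'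
      · subst hjj
        rw [(hb2 _ (hsj j).1 (hsj j).2 _ (hsj j).1 (hsj j).2).1
          (horb _ (hsj j).1 (hsj j).2).2.1, if_pos rfl]
      · rw [(hb2 _ (hsj j).1 (hsj j).2 _ (hsj j').1 (hsj j').2).2, if_neg hjj, zero_add]
        intro h
        exact hjj (hsji _ _ ((horb _ (hsj j).1 (hsj j).2).2.2 _ h)).symm) (by
      intro i
      obtain ⟨s, hs, hs1, hbs⟩ := (hb1 i i.2).2.2
      obtain ⟨j, hj⟩ := hsjs s hs hs1
      refine ⟨j, ?_⟩
      rw [← hbo' i i.2 s ((mL s).2 ⟨hs, hs1⟩) j hj]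
      exact hbs)
    have hcard : Fintype.card (Iv B W ν) = (Iv B W ν).ncard := by
      rw [← Nat.card_eq_fintype_card, Nat.card_coe_set_eq]
    rw [hcard] at c1 c2
    refine ⟨c1, fun h => ?_⟩
    obtain ⟨r, ε, hr, hε, hb3, hb4⟩ := c2 h
    refine ⟨fun j => r j, ε, b, fun j j' h => hr (Subtype.ext h), fun j => (r j).2, hε, ?_, ?_, ?_⟩
    · intro j s hs
      have hs' := (mL s).1 hs
      obtain ⟨j', hj'⟩ := hsjs s hs'.1 hs'.2
      rw [hbo' (r j) (r j).2 s hs j' hj', hb3 j j', hj']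
      by_cases hjj : j' = j
      · rw [if_pos hjj, if_pos (by rw [hjj])]
      · rw [if_neg hjj, if_neg fun h => hjj (hsji _ _ h)]
    · intro χ hχ hχr
      obtain ⟨w, hw, hw2⟩ := hb4 ⟨χ, hχ⟩ fun j hj => hχr j (congrArg Subtype.val hj)
      simp only at hw2
      rw [hw2 j₀]
      refine ⟨hw, fun s hs => ?_⟩
      have hs' := (mL s).1 hs
      obtain ⟨j', hj'⟩ := hsjs s hs'.1 hs'.2
      rw [hbo' χ hχ s hs j' hj', hw2 j']
    · intro χ hχ y hy hy1
      rw [(hb1 χ hχ).1 y hy hy1]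
      rw [hLset, finsum_mem_coe_finset]
  -- the number of characters
  have hIn : ∀ ν ∈ lk (kW E₀ W), (Iv B W ν).ncard = n + m := by
    have hcount : (Ch B W).ncard = ∑ ν ∈ fk.toFinset, (Iv B W ν).ncard := by
      have hex : ∀ χ : G → ℂ, ∃ ν : V₀ → ℂ, χ ∈ Ch B W → ν ∈ lk (kW E₀ W) ∧ χ ∈ Iv B W ν := by
        intro χ
        by_cases hχ : χ ∈ Ch B W
        · obtain ⟨ν, hν, hI⟩ := (vxm ℓ M hM h2 V₀ G E₀ hF B hB W hW χ hχ).2.1.2.2.2.1
          exact ⟨ν, fun _ => ⟨hν, hI⟩⟩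
        · exact ⟨fun _ => 1, fun h => absurd h hχ⟩
      choose φ hφ using hex
      rw [Set.ncard_eq_toFinset_card (Ch B W) hCf,
        Finset.card_eq_sum_card_fiberwise (f := φ) (t := fk.toFinset)]
      · refine Finset.sum_congr rfl fun ν hν => ?_
        rw [Set.Finite.mem_toFinset] at hν
        rw [← Set.ncard_coe_finset]
        congr 1
        ext χ
        rw [Finset.mem_coe, Finset.mem_filter, Set.Finite.mem_toFinset]
        constructor
        · rintro ⟨hχ, rfl⟩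
          exact (hφ χ hχ).2
        · intro hχ
          refine ⟨hχ.1, ?_⟩
          obtain ⟨h3, h4⟩ := hφ χ hχ.1
          funext v
          rw [← (hnu _ h3 v).1, ← (hnu _ hν v).1]
          have hp : pr ℓ E₀ W v ∈ W := by
            by_contra hcon
            obtain ⟨s, hs, hs1⟩ := lk_sep W hcon
            exact hs1 (hsw s hs v).2
          rw [← h4.2 _ hp, ← hχ.2 _ hp]
      · intro χ hχ
        rw [Finset.mem_coe, Set.Finite.mem_toFinset] at hχ
        rw [Finset.mem_coe, Set.Finite.mem_toFinset]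
        exact (hφ χ hχ).1
    have htot : (Ch B W).ncard = ∑ ν ∈ fk.toFinset, (n + m) := by
      rw [Finset.sum_const, ← Set.ncard_eq_toFinset_card _ fk, ck, smul_eq_mul]
      refine Nat.eq_of_mul_eq_mul_left hn ?_
      rw [hCn, ← hmn]
      ring
    rw [hcount] at htot
    have h3 := (Finset.sum_eq_sum_iff_of_le fun ν hν => (key ν ((fk.mem_toFinset).1 hν)).1).1 htot
    intro ν hν
    exact h3 ν ((fk.mem_toFinset).2 hν)
  intro ν hν
  have hI := hIn ν hν
  obtain ⟨r, ε, b, hr, hrI, hε, hb1, hb2, hb3⟩ := (key ν hν).2 hI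
  have hIf : (Iv B W ν).Finite := hCf.subset fun χ hχ => hχ.1
  -- the values
  have hvN : ∀ χ ∈ Iv B W ν, (∀ j, χ ≠ r j) → ∀ y ∈ kW E₀ W, y ≠ 1 →
      vx B χ y = ((- b χ (sj j₀) : ℤ) : ℂ) := by
    intro χ hχ hχr y hy hy1
    rw [hb3 χ hχ y hy hy1]
    have h3 : ∀ s ∈ L, (b χ s : ℂ) * s y = (b χ (sj j₀) : ℂ) * s y := fun s hs => by
      rw [(hb2 χ hχ hχr).2 s hs]
    rw [Finset.sum_congr rfl h3, ← Finset.mul_sum, hLs y hy hy1]
    push_cast
    ring
  have hvX : ∀ j, ∀ y ∈ kW E₀ W, y ≠ 1 → vx B (r j) y = (ε j : ℂ) * ∑ᶠ s ∈ orb E₀ W (sj j), s y := by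
    intro j y hy hy1
    rw [hb3 _ (hrI j) y hy hy1, horbs, Finset.sum_filter, Finset.mul_sum]
    refine Finset.sum_congr rfl fun s hs => ?_
    rw [hb1 j s hs]
    split_ifs <;> simp
  have hRf : (Set.range r).Finite := Set.finite_range r
  have hRc : (Set.range r).ncard = m := by
    rw [← Set.image_univ, Set.ncard_image_of_injective _ hr, Set.ncard_univ, Nat.card_fin]
  refine ⟨?_, ?_, ?_⟩
  · rw [hI, ← hmn]
    ring
  · intro hne
    have hm2 : 2 ≤ m := by
      rcases Nat.lt_or_ge m 2 with h | h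
      · exfalso
        have : m = 1 := by omega
        rw [this, one_mul] at hmn
        exact hne hmn
      · exact h
    -- the exceptional characters do not have constant values
    have hnc : ∀ j, ¬ ∀ y ∈ kW E₀ W, ∀ y' ∈ kW E₀ W, y ≠ 1 → y' ≠ 1 →
        vx B (r j) y = vx B (r j) y' := by
      intro j hconst
      obtain ⟨c, hc⟩ : ∃ c, ∀ y ∈ kW E₀ W, y ≠ 1 → vx B (r j) y = c := by
        by_cases h : ∃ y ∈ kW E₀ W, y ≠ 1
        · obtain ⟨y, hy, hy1⟩ := h
          exact ⟨vx B (r j) y, fun y' hy' hy'1 => hconst y' hy' y hy hy'1 hy1⟩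
        · exact ⟨0, fun y hy hy1 => absurd ⟨y, hy, hy1⟩ h⟩
      have hkf : ((kW E₀ W : Subgroup V₀) : Set V₀).Finite := Set.toFinite _
      have mK : ∀ y, y ∈ hkf.toFinset ↔ y ∈ kW E₀ W := fun y => by
        rw [Set.Finite.mem_toFinset, SetLike.mem_coe]
      have hfou := H52.fou (lk_finite W).toFinset hkf.toFinset ((mK 1).2 (one_mem _))
        (fun s hs => (((lk_finite W).mem_toFinset).1 hs).1)
        (fun s hs s' hs' => by
          rw [Set.Finite.mem_toFinset] at hs hs' ⊢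
          refine ⟨⟨?_, fun v w => ?_⟩, fun w hw => ?_⟩
          · show s 1 * starRingEnd ℂ (s' 1) = 1
            rw [hs.1.1, hs'.1.1, map_one, mul_one]
          · show s (v * w) * starRingEnd ℂ (s' (v * w)) = _
            rw [hs.1.2, hs'.1.2, map_mul]
            ring
          · show s w * starRingEnd ℂ (s' w) = 1
            rw [hs.2 w hw, hs'.2 w hw, map_one, mul_one])
        (fun s hs hs1 => by
          rw [Set.Finite.mem_toFinset] at hs
          have h3 := hsum2 s hs hs1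
          rw [finsum_mem_eq_finite_toFinset_sum _ hkf] at h3
          exact h3)
        (fun s => if s = (fun _ => 1) then - starRingEnd ℂ c else (b (r j) s : ℂ))
        (fun y hy hy1 => by
          rw [mK] at hy
          rw [← Finset.add_sum_erase _ _ hone, if_pos rfl, map_one, mul_one]
          have h3 : ∀ s ∈ L, (if s = (fun _ => 1) then - starRingEnd ℂ c else (b (r j) s : ℂ)) *
              starRingEnd ℂ (s y) = starRingEnd ℂ ((b (r j) s : ℂ) * s y) := by
            intro s hs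
            rw [if_neg ((mL s).1 hs).2, map_mul, map_intCast]
          rw [Finset.sum_congr rfl h3, ← map_sum, ← hb3 _ (hrI j) y hy hy1, hc y hy hy1]
          ring)
      obtain ⟨j', hj'⟩ : ∃ j' : Fin m, j' ≠ j := by
        haveI : Nontrivial (Fin m) := Fin.nontrivial_iff_two_le.2 hm2
        exact exists_ne j
      have h3 := (hfou _ (((lk_finite W).mem_toFinset).2 (hsj j).1)).trans
        (hfou _ (((lk_finite W).mem_toFinset).2 (hsj j').1)).symm
      have hK0 : (hkf.toFinset.card : ℂ) ≠ 0 := by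
        have : hkf.toFinset.card ≠ 0 := Finset.card_ne_zero_of_mem ((mK 1).2 (one_mem _))
        exact_mod_cast this
      have h4 := mul_left_cancel₀ hK0 h3
      rw [if_neg (hsj j).2, if_neg (hsj j').2] at h4
      have h5 : b (r j) (sj j) = b (r j) (sj j') := by exact_mod_cast h4
      rw [hb1 j _ ((mL _).2 (hsj j)), hb1 j _ ((mL _).2 (hsj j')), if_pos rfl,
        if_neg fun h => hj' (hsji _ _ h)] at h5
      rcases hε j with h | h <;> rw [h] at h5 <;> norm_num at h5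
    set e : (G → ℂ) → ℤ := fun χ => if h : ∃ j, χ = r j then ε h.choose else - b χ (sj j₀) with he
    set O : (G → ℂ) → Set (V₀ → ℂ) := fun χ =>
      if h : ∃ j, χ = r j then orb E₀ W (sj h.choose) else ∅ with hO
    have hch : ∀ j (h : ∃ j', r j = r j'), h.choose = j := fun j h => (hr h.choose_spec).symm
    have her : ∀ j, e (r j) = ε j := by
      intro j
      have h : ∃ j', r j = r j' := ⟨j, rfl⟩
      rw [he]
      simp only
      rw [dif_pos h, hch j h]
    have hOr : ∀ j, O (r j) = orb E₀ W (sj j) := by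
      intro j
      have h : ∃ j', r j = r j' := ⟨j, rfl⟩
      rw [hO]
      simp only
      rw [dif_pos h, hch j h]
    have hen : ∀ χ, (∀ j, χ ≠ r j) → e χ = - b χ (sj j₀) := by
      intro χ hχ
      rw [he]
      simp only
      rw [dif_neg]
      rintro ⟨j, hj⟩
      exact hχ j hj
    set N : Set (G → ℂ) := {χ | ∀ y ∈ kW E₀ W, ∀ y' ∈ kW E₀ W, y ≠ 1 → y' ≠ 1 →
      vx B χ y = vx B χ y'} with hN
    have hNr : ∀ j, r j ∉ N := fun j h => hnc j h
    have hNn : ∀ χ ∈ Iv B W ν, χ ∈ N ↔ ∀ j, χ ≠ r j := by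
      intro χ hχ
      constructor
      · rintro h j rfl
        exact hNr j h
      · intro h y hy y' hy' hy1 hy'1
        rw [hvN χ hχ h y hy hy1, hvN χ hχ h y' hy' hy'1]
    have hNx : ∀ χ ∈ Iv B W ν, χ ∉ N → ∃ j, χ = r j := by
      intro χ hχ h
      by_contra hcon
      push Not at hcon
      exact h ((hNn χ hχ).2 hcon)
    refine ⟨e, O, ?_, ?_, ?_, ?_, ?_⟩
    · intro χ hχ
      by_cases h : ∃ j, χ = r j
      · obtain ⟨j, rfl⟩ := h
        rw [her]
        exact hε j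
      · push Not at h
        rw [hen χ h]
        rcases (hb2 χ hχ h).1 with h' | h' <;> rw [h']
        · right
          rfl
        · left
          norm_num
    · intro χ hχ hχN y hy hy1
      have h := (hNn χ hχ).1 hχN
      rw [hvN χ hχ h y hy hy1, hen χ h]
    · intro χ hχ hχN
      obtain ⟨j, rfl⟩ := hNx χ hχ hχN
      refine ⟨⟨sj j, (hsj j).1, (hsj j).2, hOr j⟩, ?_⟩
      intro y hy hy1
      rw [hvX j y hy hy1, her, hOr]
    · have h3 : {χ | χ ∈ Iv B W ν ∧ χ ∈ N} = Iv B W ν \ Set.range r := by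
        ext χ
        constructor
        · rintro ⟨h4, h5⟩
          refine ⟨h4, ?_⟩
          rintro ⟨j, hj⟩
          exact (hNn χ h4).1 h5 j hj.symm
        · rintro ⟨h4, h5⟩
          exact ⟨h4, (hNn χ h4).2 fun j hj => h5 ⟨j, hj.symm⟩⟩
      rw [h3, Set.ncard_diff (by rintro _ ⟨j, rfl⟩; exact hrI j) hRf, hI, hRc]
      omega
    · intro s hs hs1
      obtain ⟨j, hj⟩ := hsjs s hs hs1
      refine ⟨r j, ⟨hrI j, hNr j, by rw [hOr, hj]⟩, ?_⟩
      rintro χ ⟨hχ, hχN, hχO⟩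
      obtain ⟨j', rfl⟩ := hNx χ hχ hχN
      rw [hOr, hj] at hχO
      rw [hsji _ _ hχO]
  · intro heq χ₀ hχ₀
    have hm1 : m = 1 := by
      rw [← heq] at hmn
      exact Nat.eq_of_mul_eq_mul_right hn (hmn.trans (one_mul _).symm)
    have hj0 : ∀ j : Fin m, j = j₀ := by
      intro j
      apply Fin.ext
      have h3 := j.2
      show (j : ℕ) = 0
      omega
    have horbL : ∀ s ∈ lk W, s ≠ (fun _ => 1) → orb E₀ W s = orb E₀ W (sj j₀) := by
      intro s hs hs1
      obtain ⟨j, hj⟩ := hsjs s hs hs1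
      rw [hj, hj0 j]
    have hosum : ∀ y ∈ kW E₀ W, y ≠ 1 → ∑ᶠ s ∈ orb E₀ W (sj j₀), s y = -1 := by
      intro y hy hy1
      rw [horbs, ← hLs y hy hy1]
      congr 1
      refine Finset.filter_true_of_mem fun s hs => ?_
      have := (mL s).1 hs
      exact horbL s this.1 this.2
    -- the constant value
    have hval : ∀ χ ∈ Iv B W ν, ∃ β : ℤ, (β = 1 ∨ β = -1) ∧ ∀ y ∈ kW E₀ W, y ≠ 1 →
        vx B χ y = (β : ℂ) := by
      intro χ hχ
      by_cases h : ∃ j, χ = r j
      · obtain ⟨j, rfl⟩ := h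
        refine ⟨- ε j, ?_, fun y hy hy1 => ?_⟩
        · rcases hε j with h' | h' <;> rw [h']
          · right
            rfl
          · left
            norm_num
        · rw [hvX j y hy hy1, hj0 j, hosum y hy hy1]
          push_cast
          ring
      · push Not at h
        refine ⟨- b χ (sj j₀), ?_, fun y hy hy1 => hvN χ hχ h y hy hy1⟩
        rcases (hb2 χ hχ h).1 with h' | h' <;> rw [h']
        · right
          rfl
        · left
          norm_num
    have hval' : ∀ χ : G → ℂ, ∃ β : ℤ, χ ∈ Iv B W ν → (β = 1 ∨ β = -1) ∧ ∀ y ∈ kW E₀ W, y ≠ 1 →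
        vx B χ y = (β : ℂ) := by
      intro χ
      by_cases h : χ ∈ Iv B W ν
      · obtain ⟨β, hβ⟩ := hval χ h
        exact ⟨β, fun _ => hβ⟩
      · exact ⟨0, fun h' => absurd h' h⟩
    choose β hβ using hval'
    refine ⟨fun χ => if χ = χ₀ then - β χ else β χ, fun _ => orb E₀ W (sj j₀), ⟨?_, ?_, ?_, ?_, ?_⟩, ?_⟩
    · intro χ hχ
      show (if χ = χ₀ then - β χ else β χ) = 1 ∨ (if χ = χ₀ then - β χ else β χ) = -1
      rcases (hβ χ hχ).1 with h | h
      · by_cases h' : χ = χ₀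
        · right
          rw [if_pos h', h]
        · left
          rw [if_neg h', h]
      · by_cases h' : χ = χ₀
        · left
          rw [if_pos h', h]
          norm_num
        · right
          rw [if_neg h', h]
    · intro χ hχ hχN y hy hy1
      have h' : χ ≠ χ₀ := hχN
      rw [(hβ χ hχ).2 y hy hy1, if_neg h']
    · intro χ hχ hχN
      have h' : χ = χ₀ := not_not.1 hχN
      refine ⟨⟨sj j₀, (hsj j₀).1, (hsj j₀).2, rfl⟩, ?_⟩
      intro y hy hy1
      rw [(hβ χ hχ).2 y hy hy1, if_pos h', hosum y hy hy1]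
      push_cast
      ring
    · have h3 : {χ | χ ∈ Iv B W ν ∧ χ ∈ {χ | χ ≠ χ₀}} = Iv B W ν \ {χ₀} := by
        ext χ
        rfl
      rw [h3, Set.ncard_diff_singleton_of_mem hχ₀, hI, hm1]
      omega
    · intro s hs hs1
      refine ⟨χ₀, ⟨hχ₀, fun h => h rfl, (horbL s hs hs1).symm⟩, ?_⟩
      rintro χ ⟨-, h, -⟩
      exact not_not.1 h
    · intro χ hχ y hy y' hy' hy1 hy'1
      rw [(hβ χ hχ).2 y hy hy1, (hβ χ hχ).2 y' hy' hy'1]

end Pool.Agent.PP.SE.H41
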